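import Pool.Agent.Helper91.FE.Kod

/-!
Sections of bounded degree of the canonical divisors of the members of a flag.
-/

set_option autoImplicit false
set_option linter.unusedSectionVars false

namespace Pool.Agent.Helper91.EF

open Module FF Pool.Agent.W602.GT Pool.Agent.W603.LV Pool.Agent.TH143.GT Pool.Agent.Y220.OG
  Pool.Agent.Helper12.BL Pool.Agent.Helper91.HM Pool.Agent.Helper91.HM.Tw

open Pool.Agent.Helper91.FE (IsTen IsMov IsSec IsFlag)

open Pool.Agent.Helper91.FD (VReg VLog VInv dl IsFr mem Adp vreg_sum vlog_sum vreg_smul vreg_sub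
  span_top exists_adp mem_mono mem_eq finrank_mem lt_restrictV FrOf frOf dl_le dl_nonneg)

variable {K : Type} [Field K] [Algebra ℂ K] {V : Type} [AddCommGroup V] [Module K V] {n r : ℕ}
  {ι : V →ₗ[K] Derivation ℂ K K}

/-- the Kodaira dimension, with sections of bounded degree -/
def KodGeB (B r n : ℕ) (X : Set (Place ℂ K)) (δ γ : Place ℂ K → ℝ) (ρ : ℤ)
    (ι : V →ₗ[K] Derivation ℂ K K) (κ : ℕ) : Prop :=
  ∃ (m : ℕ) (b : ℤ), 0 < m ∧ m ≤ B ∧ |b| ≤ B ∧ 0 < (r : ℤ) * m + ρ * b ∧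
    ∃ ω : Fin (κ + 1) → (Fin r → V) → K, (∀ j, IsSec n X δ γ ι m b (ω j)) ∧
      ∃ D, ω 0 D ≠ 0 ∧ AlgebraicIndependent ℂ (fun i : Fin κ => ω i.succ D / ω 0 D)

theorem KodGeB.mono {B B' r n : ℕ} {X : Set (Place ℂ K)} {δ γ : Place ℂ K → ℝ} {ρ : ℤ} {κ : ℕ}
    (hB : B ≤ B') (h : KodGeB B r n X δ γ ρ ι κ) : KodGeB B' r n X δ γ ρ ι κ := by
  obtain ⟨m, b, h1, h2, h3, h4⟩ := h
  exact ⟨m, b, h1, h2.trans hB, h3.trans (by exact_mod_cast hB), h4⟩

/-- the bound for the degrees -/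
def Phi (E B : ℕ) : ℕ := (B + 1) ^ (2 * E) * (E + 2 * E * B)

/-- sections on subspaces as functions of families of vectors of `V` -/
theorem ext_form {X : Set (Place ℂ K)} {δ γ : Place ℂ K → ℝ} (hδ : ∀ P ∈ X, 0 ≤ δ P) {ρ : ℤ}
    {F : Submodule K V} {B0 : ℕ} (h : KodGeB B0 (finrank K F) n X δ γ ρ (ι ∘ₗ F.subtype) 0) :
    ∃ (m : ℕ) (b : ℤ), 0 < m ∧ m ≤ B0 ∧ |b| ≤ B0 ∧ 0 < (finrank K F : ℤ) * m + ρ * b ∧ ∃ θ : (Fin (finrank K F) → V) → K,
      (∀ (A : Matrix (Fin (finrank K F)) (Fin (finrank K F)) K)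
        (B : Fin (finrank K F) → V), (∀ i, B i ∈ F) → θ (lt A B) = A.det ^ m * θ B) ∧
      (∃ B, (∀ i, B i ∈ F) ∧ θ B ≠ 0) ∧
      ∀ P ∈ X, Divisorial n P → ∀ B, FrOf ι F P B → Gr P (-(m * δ P + b * γ P)) (θ B) ∧
        ((∀ i, VLog ι P (B i)) → Gr P (-(b * γ P)) (θ B)) := by
  classical
  obtain ⟨m, b, hm, hmB, hbB, hmb, ω, hω, D, hD, -⟩ := h
  obtain ⟨θ, hθ, hθ0⟩ : ∃ θ : (Fin (finrank K F) → V) → K,
      (∀ (B : Fin (finrank K F) → V) (hB : ∀ i, B i ∈ F), θ B = ω 0 (fun i => ⟨B i, hB i⟩)) ∧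
        ∀ B : Fin (finrank K F) → V, ¬ (∀ i, B i ∈ F) → θ B = 0 :=
    ⟨fun B => if hB : ∀ i, B i ∈ F then ω 0 (fun i => ⟨B i, hB i⟩) else 0,
      fun B hB => dif_pos hB, fun B hB => dif_neg hB⟩
  refine ⟨m, b, hm, hmB, hbB, hmb, θ, fun A B hB => ?_, ⟨fun i => D i, fun i => (D i).2, ?_⟩,
    fun P hP hdiv B hB => ⟨?_, fun hlog => ?_⟩⟩
  · have hAB : ∀ i, lt A B i ∈ F := fun i => Submodule.sum_mem _ fun j _ =>
      Submodule.smul_mem _ _ (hB j)
    rw [hθ _ hAB, hθ _ hB, ← (hω 0).1]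
    congr 1
    funext i
    apply Subtype.ext
    change ∑ j, A i j • B j = F.subtype (∑ j, A i j • (⟨B j, hB j⟩ : F))
    rw [map_sum]
    rfl
  · rw [hθ _ fun i => (D i).2]
    exact hD
  · rw [hθ _ fun i => (hB.1 i).1]
    refine Gr.mono ?_ ((hω 0).2 P hP hdiv (fun i => ⟨B i, (hB.1 i).1⟩) fun i => (hB.1 i).2)
    rw [neg_le_neg_iff]
    exact add_le_add (mul_le_mul_of_nonneg_left (dl_le (hδ P hP)) (Nat.cast_nonneg _)) le_rfl
  · rw [hθ _ fun i => (hB.1 i).1]
    have h1 := (hω 0).2 P hP hdiv (fun i => ⟨B i, (hB.1 i).1⟩) fun i => (hB.1 i).2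
    have h2 : dl δ (ι ∘ₗ F.subtype) P = 0 := if_pos fun v hv => by
      obtain ⟨c, hc, hcv⟩ := hB.2 v.1 v.2 hv
      change VLog ι P v.1
      rw [hcv]
      exact vlog_sum hc hlog
    rw [h2, mul_zero, zero_add] at h1
    exact h1

/-- If all proper members of the flag have nonnegative Kodaira dimension then the Iitaka dimension of
the section is at most the Kodaira dimension. -/
theorem kod_of_mems [Algebra.EssFiniteType ℂ K] (hn : Algebra.trdeg ℂ K = n)
    (hι : Function.Injective ι) [FiniteDimensional K V] (hr : finrank K V = r) (hr0 : 0 < r)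
    {X : Set (Place ℂ K)} {δ γ : Place ℂ K → ℝ} (hδ : ∀ P ∈ X, 0 ≤ δ P) {ρ : ℤ}
    {b : Fin r → V} {e : Fin r → ℤ} (hb : LinearIndependent K b) (he : 0 < ∑ j, e j) {β : ℤ}
    (heβ : 0 < ∑ j, e j + ρ * β)
    {κ : ℕ} {ω : (Fin r → V) → K} (hω : IsFlag n X δ γ ι b e β ω)
    (hω0 : ∃ D, Adp (K := K) b e D ∧ ω D ≠ 0) {f : Fin κ → K} (hf : AlgebraicIndependent ℂ f)
    (hfs : ∀ j, IsFlag n X δ γ ι b e β (fun D => f j * ω D))
    {E0 B0 : ℕ} (heE : ∀ j, |e j| ≤ E0) (hβE : |β| ≤ E0)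
    (hmem : ∀ j, (mem b e (e j) : Submodule K V) ≠ ⊤ →
      KodGeB B0 (finrank K (mem b e (e j) : Submodule K V)) n X δ γ ρ
        (ι ∘ₗ (mem b e (e j) : Submodule K V).subtype) 0) :
    KodGeB (Phi E0 B0) r n X δ γ ρ ι κ := by
  classical
  have hne : (Finset.univ : Finset (Fin r)).Nonempty := ⟨⟨0, hr0⟩, Finset.mem_univ _⟩
  obtain ⟨j0, -, hj0⟩ := Finset.exists_min_image Finset.univ e hne
  obtain ⟨j1, -, hj1⟩ := Finset.exists_max_image Finset.univ e hne
  have hmax0 : 0 < e j1 := by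
    by_contra hcon
    have h1 : ∑ j, e j ≤ 0 := Finset.sum_nonpos fun j _ =>
      (hj1 j (Finset.mem_univ _)).trans (not_lt.1 hcon)
    omega
  have hbs := span_top hr hb
  obtain ⟨bas, hbas⟩ : ∃ bas : Basis (Fin r) K V, ∀ j, bas j = b j :=
    ⟨Basis.mk hb hbs.ge, fun j => by rw [Basis.mk_apply]⟩
  have hcoord : ∀ t, ∀ D ∈ (mem b e t : Submodule K V), ∀ l, bas.repr D l ≠ 0 → e l ≤ t := by
    intro t D hD l hl
    by_contra hlt
    apply hl
    have h1 : (mem b e t : Submodule K V) ≤ LinearMap.ker (bas.coord l) := by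
      rw [mem, Submodule.span_le]
      rintro _ ⟨j, hj, rfl⟩
      rw [SetLike.mem_coe, LinearMap.mem_ker, Basis.coord_apply, ← hbas, Basis.repr_self,
        Finsupp.single_apply, if_neg]
      rintro rfl
      exact hlt hj
    have h2 := h1 hD
    rwa [LinearMap.mem_ker, Basis.coord_apply] at h2
  -- the members
  have hproper : ∀ t, e j0 ≤ t → t < e j1 → KodGeB B0 (finrank K (mem b e t : Submodule K V)) n X δ γ ρ
      (ι ∘ₗ (mem b e t : Submodule K V).subtype) 0 := by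
    intro t h0 h1
    obtain ⟨j, hj, hj'⟩ := Finset.exists_max_image (Finset.univ.filter fun l => e l ≤ t) e
      ⟨j0, Finset.mem_filter.2 ⟨Finset.mem_univ _, h0⟩⟩
    have h2 : (mem b e t : Submodule K V) = mem b e (e j) := by
      rw [mem, mem]
      congr 2
      ext l
      constructor
      · intro hl
        exact hj' l (Finset.mem_filter.2 ⟨Finset.mem_univ _, hl⟩)
      · intro hl
        exact le_trans hl (Finset.mem_filter.1 hj).2
    rw [h2]
    apply hmem
    rw [← h2]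
    intro htop
    have h3 : b j1 ∈ (mem b e t : Submodule K V) := htop ▸ Submodule.mem_top
    have h4 := hcoord t _ h3 j1 (by
      rw [← hbas, Basis.repr_self, Finsupp.single_eq_same]
      exact one_ne_zero)
    omega
  have hall : ∀ t, ∃ (m : ℕ) (d : ℤ) (θ : (Fin (finrank K (mem b e t : Submodule K V)) → V) → K),
      0 < m ∧ (e j0 ≤ t → t < e j1 → (m ≤ B0 ∧ |d| ≤ B0) ∧
        0 < (finrank K (mem b e t : Submodule K V) : ℤ) * m + ρ * d ∧
        (∀ (A : Matrix (Fin (finrank K (mem b e t : Submodule K V))) (Fin (finrank K (mem b e t : Submodule K V))) K)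
          (B : Fin (finrank K (mem b e t : Submodule K V)) → V), (∀ i, B i ∈ (mem b e t : Submodule K V)) →
            θ (lt A B) = A.det ^ m * θ B) ∧
        (∃ B, (∀ i, B i ∈ (mem b e t : Submodule K V)) ∧ θ B ≠ 0) ∧
        ∀ P ∈ X, Divisorial n P → ∀ B, FrOf ι (mem b e t) P B →
          Gr P (-(m * δ P + d * γ P)) (θ B) ∧
            ((∀ i, VLog ι P (B i)) → Gr P (-(d * γ P)) (θ B))) := by
    intro t
    by_cases h : e j0 ≤ t ∧ t < e j1
    · obtain ⟨m, d, hm, hmB, hdB, hmd, θ, hθ⟩ := ext_form hδ (hproper t h.1 h.2)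
      exact ⟨m, d, θ, hm, fun _ _ => ⟨⟨hmB, hdB⟩, hmd, hθ⟩⟩
    · exact ⟨1, 0, fun _ => 0, one_pos, fun h0 h1 => absurd ⟨h0, h1⟩ h⟩
  choose m d θ hm hθ' using hall
  have hθ := fun t h0 h1 => (hθ' t h0 h1).2.2
  have hσ : ∀ t, Nonempty (Fin (finrank K (mem b e t : Submodule K V)) ≃ {l // e l ≤ t}) := fun t =>
    ⟨(finCongr (finrank_mem hb e t)).trans (Fintype.equivFin _).symm⟩
  let σ : ∀ t, Fin (finrank K (mem b e t : Submodule K V)) ≃ {l // e l ≤ t} := fun t => (hσ t).some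
  obtain ⟨I, hI⟩ : ∃ I, I = Finset.Ico (e j0) (e j1) := ⟨_, rfl⟩
  have hImem : ∀ t, t ∈ I ↔ e j0 ≤ t ∧ t < e j1 := fun t => by rw [hI, Finset.mem_Ico]
  obtain ⟨M, hM⟩ : ∃ M, M = ∏ t ∈ I, m t := ⟨_, rfl⟩
  obtain ⟨rr, hrr⟩ : ∃ rr : ℤ → ℕ, ∀ t, rr t = ∏ u ∈ I.erase t, m u := ⟨_, fun _ => rfl⟩
  have hmr : ∀ t ∈ I, m t * rr t = M := fun t ht => by
    rw [hrr, hM, Finset.mul_prod_erase _ _ ht]
  have hM0 : 0 < M := hM ▸ Finset.prod_pos fun t _ => hm t
  obtain ⟨W, hW⟩ : ∃ W : ℕ, (W : ℤ) = M * e j1 := ⟨(M * e j1).toNat, Int.toNat_of_nonneg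
    (mul_nonneg (Int.natCast_nonneg _) hmax0.le)⟩
  have hW0 : 0 < W := by
    have h1 : (0 : ℤ) < M := by exact_mod_cast hM0
    have h2 := mul_pos h1 hmax0
    rw [← hW] at h2
    exact_mod_cast h2
  obtain ⟨T, hT⟩ : ∃ T : ℤ, T = M * β + ∑ t ∈ I, rr t * d t := ⟨_, rfl⟩
  have hWT : 0 < (r : ℤ) * W + ρ * T := by
    have h1 : ∑ t ∈ I, (finrank K (mem b e t : Submodule K V) : ℤ) = r * e j1 - ∑ j, e j := by
      have h2 : ∀ t, (finrank K (mem b e t : Submodule K V) : ℤ) = ∑ j, if e j ≤ t then 1 else 0 := by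
        intro t
        rw [finrank_mem hb, Fintype.card_subtype, Finset.card_filter]
        push_cast
        rfl
      rw [Finset.sum_congr rfl fun t _ => h2 t, Finset.sum_comm]
      have h3 : ∀ j, ∑ t ∈ I, (if e j ≤ t then (1 : ℤ) else 0) = e j1 - e j := by
        intro j
        rw [← Finset.sum_filter]
        have h4 : I.filter (fun t => e j ≤ t) = Finset.Ico (e j) (e j1) := by
          ext t
          rw [Finset.mem_filter, hImem, Finset.mem_Ico]
          constructor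
          · rintro ⟨⟨-, h5⟩, h6⟩
            exact ⟨h6, h5⟩
          · rintro ⟨h5, h6⟩
            exact ⟨⟨(hj0 j (Finset.mem_univ _)).trans h5, h6⟩, h5⟩
        rw [h4, Finset.sum_const, Int.card_Ico, nsmul_eq_mul, mul_one,
          Int.toNat_of_nonneg (sub_nonneg.2 (hj1 j (Finset.mem_univ _)))]
      rw [Finset.sum_congr rfl fun j _ => h3 j, Finset.sum_sub_distrib, Finset.sum_const,
        Finset.card_univ, Fintype.card_fin, nsmul_eq_mul]
    have h2 : ∀ t ∈ I, 0 ≤ (M : ℤ) * finrank K (mem b e t : Submodule K V) + ρ * (rr t * d t) := by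
      intro t ht
      obtain ⟨ht0, ht1⟩ := (hImem t).1 ht
      have h3 := (hθ' t ht0 ht1).2.1
      have h4 : (M : ℤ) = m t * rr t := by exact_mod_cast (hmr t ht).symm
      have h5 : (M : ℤ) * finrank K (mem b e t : Submodule K V) + ρ * (rr t * d t) =
          rr t * ((finrank K (mem b e t : Submodule K V) : ℤ) * m t + ρ * d t) := by
        rw [h4]
        ring
      rw [h5]
      exact mul_nonneg (Int.natCast_nonneg _) h3.le
    have h3 := Finset.sum_nonneg h2
    rw [Finset.sum_add_distrib, ← Finset.mul_sum, h1, ← Finset.mul_sum] at h3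
    have h4 : (0 : ℤ) < M * (∑ j, e j + ρ * β) := mul_pos (by exact_mod_cast hM0) heβ
    rw [hW, hT]
    linarith
  -- the bounds
  have hIc : I.card ≤ 2 * E0 := by
    rw [hI, Int.card_Ico]
    have h1 := abs_le.1 (heE j1)
    have h2 := abs_le.1 (heE j0)
    omega
  have hmB : ∀ t ∈ I, m t ≤ B0 + 1 := fun t ht => by
    obtain ⟨ht0, ht1⟩ := (hImem t).1 ht
    exact (hθ' t ht0 ht1).1.1.trans (Nat.le_succ _)
  have hMB : M ≤ (B0 + 1) ^ (2 * E0) := by
    rw [hM]
    calc ∏ t ∈ I, m t ≤ ∏ t ∈ I, (B0 + 1) := Finset.prod_le_prod' hmB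
      _ = (B0 + 1) ^ I.card := by rw [Finset.prod_const]
      _ ≤ (B0 + 1) ^ (2 * E0) := Nat.pow_le_pow_right (Nat.succ_pos _) hIc
  have hrB : ∀ t ∈ I, rr t ≤ (B0 + 1) ^ (2 * E0) := fun t ht => by
    rw [hrr]
    calc ∏ u ∈ I.erase t, m u ≤ ∏ u ∈ I.erase t, (B0 + 1) :=
          Finset.prod_le_prod' fun u hu => hmB u (Finset.mem_of_mem_erase hu)
      _ = (B0 + 1) ^ (I.erase t).card := by rw [Finset.prod_const]
      _ ≤ (B0 + 1) ^ (2 * E0) := Nat.pow_le_pow_right (Nat.succ_pos _)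
          ((Finset.card_le_card (Finset.erase_subset _ _)).trans hIc)
  have hWB : W ≤ Phi E0 B0 := by
    have h1 : (W : ℤ) ≤ (((B0 + 1) ^ (2 * E0) * E0 : ℕ) : ℤ) := by
      rw [hW]
      push_cast
      refine mul_le_mul (by exact_mod_cast hMB) (le_of_abs_le (heE j1)) hmax0.le (by positivity)
    have h2 : W ≤ (B0 + 1) ^ (2 * E0) * E0 := by exact_mod_cast h1
    refine h2.trans ?_
    rw [Phi, mul_add]
    exact Nat.le_add_right _ _
  have hTB : |T| ≤ (Phi E0 B0 : ℤ) := by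
    have h1 : |(M : ℤ) * β| ≤ (B0 + 1 : ℤ) ^ (2 * E0) * E0 := by
      rw [abs_mul, Nat.abs_cast]
      exact mul_le_mul (by exact_mod_cast hMB) hβE (abs_nonneg _) (by positivity)
    have h2 : |∑ t ∈ I, (rr t : ℤ) * d t| ≤ 2 * E0 * ((B0 + 1 : ℤ) ^ (2 * E0) * B0) := by
      refine (Finset.abs_sum_le_sum_abs _ _).trans ?_
      have h3 : ∀ t ∈ I, |(rr t : ℤ) * d t| ≤ (B0 + 1 : ℤ) ^ (2 * E0) * B0 := by
        intro t ht
        obtain ⟨ht0, ht1⟩ := (hImem t).1 ht
        rw [abs_mul, Nat.abs_cast]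
        exact mul_le_mul (by exact_mod_cast hrB t ht) (hθ' t ht0 ht1).1.2 (abs_nonneg _)
          (by positivity)
      refine (Finset.sum_le_sum h3).trans ?_
      rw [Finset.sum_const, nsmul_eq_mul]
      exact mul_le_mul_of_nonneg_right (by exact_mod_cast hIc) (by positivity)
    rw [hT]
    refine (abs_add_le _ _).trans ((add_le_add h1 h2).trans (le_of_eq ?_))
    rw [Phi]
    push_cast
    ring
  let G : K → (Fin r → V) → K := fun c D =>
    c * ω D ^ M * ∏ t ∈ I, θ t (fun i => D (σ t i).1) ^ rr t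
  have hGc : ∀ c D, G c D = c * G 1 D := fun c D => by
    change c * ω D ^ M * _ = c * (1 * ω D ^ M * _)
    ring
  -- the transformation law
  have hlaw : ∀ (C : Matrix (Fin r) (Fin r) K) (D : Fin r → V), Adp (K := K) b e D →
      C.det ≠ 0 → (∀ i j, C i j ≠ 0 → e j ≤ e i) → ∀ c, G c (lt C D) = C.det ^ W * G c D := by
    intro C D hD hC hCe c
    have h1 : ω (lt C D) = (∏ t ∈ Finset.univ.image e, (C.toSquareBlock e t).det ^ t) * ω D :=
      hω.1 C D hD hC hCe
    have hdet := det_blocks hCe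
    have hd : ∀ u ∈ Finset.univ.image e, (C.toSquareBlock e u).det ≠ 0 := by
      rw [hdet] at hC
      exact fun u hu => Finset.prod_ne_zero_iff.1 hC u hu
    have h2 : ∀ t ∈ I, θ t (fun i => lt C D (σ t i).1) ^ rr t =
        (∏ u ∈ Finset.univ.image e, if u ≤ t then (C.toSquareBlock e u).det ^ (M : ℤ) else 1) *
          θ t (fun i => D (σ t i).1) ^ rr t := by
      intro t ht
      obtain ⟨ht0, ht1⟩ := (hImem t).1 ht
      rw [lt_restrictV hCe D (σ t), (hθ t ht0 ht1).1 _ _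
        (fun i => mem_mono (σ t i).2 (hD.2 _)), det_blocks_le hCe t (σ t), mul_pow, ← pow_mul,
        hmr t ht, ← Finset.prod_pow, Finset.prod_filter]
      simp only [zpow_natCast]
    change c * ω (lt C D) ^ M * ∏ t ∈ I, θ t (fun i => lt C D (σ t i).1) ^ rr t = _
    rw [Finset.prod_congr rfl h2, Finset.prod_mul_distrib, Finset.prod_comm, h1, mul_pow,
      ← Finset.prod_pow]
    have h3 : ∀ u ∈ Finset.univ.image e, ((C.toSquareBlock e u).det ^ u) ^ M *
        ∏ t ∈ I, (if u ≤ t then (C.toSquareBlock e u).det ^ (M : ℤ) else 1) =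
          (C.toSquareBlock e u).det ^ W := by
      intro u hu
      obtain ⟨l, -, hl⟩ := Finset.mem_image.1 hu
      have hul : e j0 ≤ u := hl ▸ hj0 l (Finset.mem_univ _)
      have hul' : u ≤ e j1 := hl ▸ hj1 l (Finset.mem_univ _)
      rw [← Finset.prod_filter, Finset.prod_const]
      have h4 : I.filter (fun t => u ≤ t) = Finset.Ico u (e j1) := by
        ext t
        rw [Finset.mem_filter, hImem, Finset.mem_Ico]
        constructor
        · rintro ⟨⟨-, h5⟩, h6⟩
          exact ⟨h6, h5⟩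
        · rintro ⟨h5, h6⟩
          exact ⟨⟨hul.trans h5, h6⟩, h5⟩
      rw [h4, Int.card_Ico, ← zpow_natCast (C.toSquareBlock e u).det W, ← zpow_natCast _ M,
        ← zpow_mul, ← zpow_natCast _ (e j1 - u).toNat, ← zpow_mul, ← zpow_add₀ (hd u hu),
        Int.toNat_of_nonneg (sub_nonneg.2 hul'), hW]
      congr 1
      ring
    have h5 : C.det ^ W = (∏ u ∈ Finset.univ.image e, ((C.toSquareBlock e u).det ^ u) ^ M) *
        ∏ u ∈ Finset.univ.image e, ∏ t ∈ I,
          (if u ≤ t then (C.toSquareBlock e u).det ^ (M : ℤ) else 1) := by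
      rw [← Finset.prod_mul_distrib, Finset.prod_congr rfl h3, hdet, Finset.prod_pow]
    rw [h5]
    change _ = _ * (c * ω D ^ M * ∏ t ∈ I, θ t (fun i => D (σ t i).1) ^ rr t)
    ring
  have hbA : Adp (K := K) b e b := ⟨hb, fun j => Submodule.subset_span ⟨j, le_refl (e j), rfl⟩⟩
  -- the coordinates
  obtain ⟨R, hRdef⟩ : ∃ R : (Fin r → V) → Matrix (Fin r) (Fin r) K,
    ∀ D, R D = Matrix.of fun i j => bas.repr (D i) j := ⟨_, fun _ => rfl⟩
  have hR : ∀ D, lt (R D) b = D := by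
    intro D
    funext i
    rw [lt, hRdef]
    have h1 := bas.sum_repr (D i)
    simp only [hbas] at h1
    exact h1
  have hRlt : ∀ (C : Matrix (Fin r) (Fin r) K) (D : Fin r → V),
      R (lt C D) = C * R D := by
    intro C D
    ext i j
    rw [hRdef, hRdef, Matrix.of_apply, Matrix.mul_apply, lt, map_sum, Finsupp.coe_finsetSum,
      Finset.sum_apply]
    refine Finset.sum_congr rfl fun l _ => ?_
    rw [map_smul, Finsupp.smul_apply, smul_eq_mul, Matrix.of_apply]
  have hRli : ∀ D, LinearIndependent K D → (R D).det ≠ 0 := fun D hD => by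
    rw [← hR D] at hD
    exact (lt_li.1 hD).2
  have hRA : ∀ D, Adp (K := K) b e D → ∀ i j, R D i j ≠ 0 → e j ≤ e i := by
    intro D hD i j hij
    rw [hRdef, Matrix.of_apply] at hij
    exact hcoord _ _ (hD.2 i) j hij
  have hGb : ∀ D, Adp (K := K) b e D → ∀ c, G c D = (R D).det ^ W * G c b := by
    intro D hD c
    have h1 := hlaw (R D) b hbA (hRli D hD.1) (hRA D hD) c
    rwa [hR] at h1
  -- nonvanishing
  have hωb : ω b ≠ 0 := by
    obtain ⟨D, hD, hne⟩ := hω0
    have h1 : ω (lt (R D) b) = _ := hω.1 (R D) b hbA (hRli D hD.1) (hRA D hD)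
    rw [hR] at h1
    rw [h1] at hne
    exact right_ne_zero_of_mul hne
  have hθb : ∀ t ∈ I, θ t (fun i => b (σ t i).1) ≠ 0 := by
    intro t ht
    obtain ⟨ht0, ht1⟩ := (hImem t).1 ht
    obtain ⟨B, hB, hne⟩ := (hθ t ht0 ht1).2.1
    have h1 : B = lt (Matrix.of fun i j => bas.repr (B i) (σ t j).1)
        (fun j => b (σ t j).1) := by
      funext i
      have h2 := bas.sum_repr (B i)
      simp only [hbas] at h2
      have h3 := sum_restrict (σ t) (fun l => bas.repr (B i) l • b l) fun l hl =>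
        hcoord t _ (hB i) l fun h => hl (by rw [h, zero_smul])
      rw [h3] at h2
      exact h2.symm
    rw [h1, (hθ t ht0 ht1).1 _ _ fun i => mem_mono (σ t i).2 (hbA.2 _)] at hne
    exact right_ne_zero_of_mul hne
  have hG0 : G 1 b ≠ 0 := by
    change 1 * ω b ^ M * ∏ t ∈ I, θ t (fun i => b (σ t i).1) ^ rr t ≠ 0
    rw [one_mul]
    exact mul_ne_zero (pow_ne_zero _ hωb)
      (Finset.prod_ne_zero_iff.2 fun t ht => pow_ne_zero _ (hθb t ht))
  -- the sections
  let Ω : K → (Fin r → V) → K := fun c D => (R D).det ^ W * G c b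
  have hpl : ∀ c, ∀ (A : Matrix (Fin r) (Fin r) K) (D : Fin r → V), Ω c (lt A D) = A.det ^ W * Ω c D := by
    intro c C D
    change (R (lt C D)).det ^ W * G c b = C.det ^ W * ((R D).det ^ W * G c b)
    rw [hRlt, Matrix.det_mul, mul_pow]
    ring
  have hΩ : ∀ c, IsFlag n X δ γ ι b e β (fun D => c * ω D) → IsSec n X δ γ ι W T (Ω c) := by
    intro c hc
    refine ⟨hpl c, fun P hP hdiv D hD => ?_⟩
    obtain ⟨E, hEA, hframe, hexp⟩ := exists_adp hn hι hr hb e hdiv
    have hTr : (T : ℝ) = M * β + ∑ t ∈ I, ((rr t : ℝ) * (d t : ℝ)) := by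
      rw [hT]
      push_cast
      rfl
    have hbound : Gr P (-(W * dl δ ι P + T * γ P)) (G c E) := by
      by_cases hex : ∃ i, ¬ VLog ι P (E i)
      · obtain ⟨i, hi⟩ := hex
        have hdl : dl δ ι P = δ P := if_neg fun h => hi (h _ (hframe.1 i))
        obtain ⟨i0, hi0, hmin⟩ := Finset.exists_min_image
          (Finset.univ.filter fun i => ¬ VLog ι P (E i)) e ⟨i, Finset.mem_filter.2
            ⟨Finset.mem_univ _, hi⟩⟩
        have hi0' := (Finset.mem_filter.1 hi0).2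
        have hlog : ∀ j, e j < e i0 → VLog ι P (E j) := by
          intro j hj
          by_contra hcon
          exact absurd (hmin j (Finset.mem_filter.2 ⟨Finset.mem_univ _, hcon⟩)) (not_le.2 hj)
        have hω1 : Gr P (-(e i0 * δ P + β * γ P)) (ω E) :=
          (hω.2 P hP hdiv E hEA hframe).1 i0 hi0' hlog
        have hω2 : Gr P (-(e i0 * δ P + β * γ P)) (c * ω E) :=
          (hc.2 P hP hdiv E hEA hframe).1 i0 hi0' hlog
        have h3 : Gr P (M * -(e i0 * δ P + β * γ P)) (c * ω E ^ M) := by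
          obtain ⟨M', hM'⟩ : ∃ M', M = M' + 1 := ⟨M - 1, by omega⟩
          have h4 := hω2.mul (Gr.pow hω1 M')
          rw [hM']
          have h5 : c * ω E ^ (M' + 1) = c * ω E * ω E ^ M' := by ring
          rw [h5]
          refine Gr.mono (le_of_eq ?_) h4
          push_cast
          ring
        have h4 : ∀ t ∈ I, Gr P ((if e i0 ≤ t then -(M * δ P) else 0) + -(rr t * d t * γ P))
            (θ t (fun i => E (σ t i).1) ^ rr t) := by
          intro t ht
          obtain ⟨ht0, ht1⟩ := (hImem t).1 ht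
          have h5 := (hθ t ht0 ht1).2.2 P hP hdiv _ (frOf hEA hframe.1 (hexp t) (σ t))
          by_cases h6 : e i0 ≤ t
          · rw [if_pos h6]
            have h7 : Gr P (-(m t * δ P + d t * γ P)) (θ t (fun i => E (σ t i).1)) := h5.1
            refine Gr.mono (le_of_eq ?_) (Gr.pow h7 (rr t))
            rw [← hmr t ht]
            push_cast
            ring
          · rw [if_neg h6]
            have h8 := h5.2 fun i => hlog _ (lt_of_le_of_lt (σ t i).2 (not_le.1 h6))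
            refine Gr.mono (le_of_eq ?_) (Gr.pow h8 (rr t))
            ring
        refine Gr.mono (le_of_eq ?_) (h3.mul (Gr.prod (P := P) I _ _ h4))
        rw [Finset.sum_add_distrib, ← Finset.sum_filter, Finset.sum_const, Finset.sum_neg_distrib,
          ← Finset.sum_mul, hTr, hdl]
        have h6 : I.filter (fun t => e i0 ≤ t) = Finset.Ico (e i0) (e j1) := by
          ext t
          rw [Finset.mem_filter, hImem, Finset.mem_Ico]
          constructor
          · rintro ⟨⟨-, h5⟩, h6⟩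
            exact ⟨h6, h5⟩
          · rintro ⟨h5, h6⟩
            exact ⟨⟨(hj0 i0 (Finset.mem_univ _)).trans h5, h6⟩, h5⟩
        have h7 : (((e j1 - e i0).toNat : ℕ) : ℝ) = e j1 - e i0 := by
          have h8 : (((e j1 - e i0).toNat : ℕ) : ℤ) = e j1 - e i0 :=
            Int.toNat_of_nonneg (sub_nonneg.2 (hj1 i0 (Finset.mem_univ _)))
          exact_mod_cast h8
        have h8 : (W : ℝ) = M * e j1 := by exact_mod_cast hW
        rw [h6, Int.card_Ico, nsmul_eq_mul, h7, h8]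
        ring
      · push Not at hex
        have hdl : dl δ ι P = 0 := if_pos fun v hv => by
          obtain ⟨c, hc, rfl⟩ := hframe.2 v hv
          exact vlog_sum hc hex
        have hω1 : Gr P (-(β * γ P)) (ω E) := (hω.2 P hP hdiv E hEA hframe).2 hex
        have hω2 : Gr P (-(β * γ P)) (c * ω E) := (hc.2 P hP hdiv E hEA hframe).2 hex
        have h3 : Gr P (M * -(β * γ P)) (c * ω E ^ M) := by
          obtain ⟨M', hM'⟩ : ∃ M', M = M' + 1 := ⟨M - 1, by omega⟩
          have h4 := hω2.mul (Gr.pow hω1 M')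
          rw [hM']
          have h5 : c * ω E ^ (M' + 1) = c * ω E * ω E ^ M' := by ring
          rw [h5]
          refine Gr.mono (le_of_eq ?_) h4
          push_cast
          ring
        have h4 : ∀ t ∈ I, Gr P (-(rr t * d t * γ P)) (θ t (fun i => E (σ t i).1) ^ rr t) := by
          intro t ht
          obtain ⟨ht0, ht1⟩ := (hImem t).1 ht
          have h5 := (hθ t ht0 ht1).2.2 P hP hdiv _ (frOf hEA hframe.1 (hexp t) (σ t))
          refine Gr.mono (le_of_eq ?_) (Gr.pow (h5.2 fun i => hex _) (rr t))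
          ring
        refine Gr.mono (le_of_eq ?_) (h3.mul (Gr.prod (P := P) I _ _ h4))
        rw [hdl, hTr, Finset.sum_neg_distrib, ← Finset.sum_mul]
        ring
    -- the comparison
    choose c' hc' hcD using fun i => hframe.2 (D i) (hD i)
    obtain ⟨C, hC⟩ : ∃ C : Matrix (Fin r) (Fin r) K, C = Matrix.of c' := ⟨_, rfl⟩
    have hDC : D = lt C E := by
      funext i
      rw [hcD i, hC]
      rfl
    have hdet : Gr P 0 C.det := det_reg fun i j => by
      rw [hC]
      exact hc' i j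
    have h6 : Ω c D = C.det ^ W * G c E := by
      rw [hDC, hGb E hEA c]
      exact hpl c C E
    rw [h6]
    refine Gr.mono (le_of_eq ?_) ((Gr.pow hdet W).mul hbound)
    ring
  have hΩb : ∀ c, Ω c b = c * G 1 b := by
    intro c
    change (R b).det ^ W * G c b = c * G 1 b
    rw [← hGb b hbA, hGc]
  obtain ⟨F, hF0, hF⟩ : ∃ F : Fin (κ + 1) → K, F 0 = 1 ∧ ∀ j, F (Fin.succ j) = f j :=
    ⟨Fin.cons 1 f, rfl, fun _ => rfl⟩
  refine ⟨W, T, hW0, hWB, hTB, hWT, fun j => Ω (F j), fun j => hΩ _ ?_, b, ?_, ?_⟩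
  · refine Fin.cases ?_ (fun j => ?_) j
    · rw [hF0]
      simp only [one_mul]
      exact hω
    · rw [hF]
      exact hfs j
  · change Ω (F 0) b ≠ 0
    rw [hΩb, hF0, one_mul]
    exact hG0
  · change AlgebraicIndependent ℂ (fun j : Fin κ => Ω (F j.succ) b / Ω (F 0) b)
    have h1 : (fun j : Fin κ => Ω (F j.succ) b / Ω (F 0) b) = f := by
      funext j
      rw [hΩb, hΩb, hF0, one_mul, hF]
      exact mul_div_cancel_right₀ _ hG0
    rw [h1]
    exact hf

end Pool.Agent.Helper91.EF
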