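import Pool.Agent.Helper91.LV.Wt

/-!
Only finitely many weights of optimal destabilising flags.
-/

set_option autoImplicit false
set_option linter.unusedSectionVars false

namespace Pool.Agent.Helper91.EF

open Pool.Agent.Helper91.HM

/-- the index set of the coordinates of tensors of degree at most `D` -/
abbrev Sup (n D : ℕ) : Type := Σ d : Fin (D + 1), (Fin (d : ℕ) → Fin n)

/-- the weights which destabilise the support `𝒯` -/
def PP (n D : ℕ) (𝒯 : Set (Sup n D)) : Set (Fin n → ℝ) :=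
  {b | ∑ j, b j = 0 ∧ ∀ x ∈ 𝒯, ∑ k, b (x.2 k) ≤ -1}

/-- the optimal weights -/
def WW (n D : ℕ) : Set (Fin n → ℝ) :=
  {y | ∃ 𝒯 : Set (Sup n D), y ∈ PP n D 𝒯 ∧ ∀ z ∈ PP n D 𝒯, ∑ j, y j ^ 2 ≤ ∑ j, z j ^ 2}

theorem WW_finite (n D : ℕ) : (WW n D).Finite := by
  classical
  have h1 : WW n D ⊆ ⋃ 𝒯 : Set (Sup n D),
      {y | y ∈ PP n D 𝒯 ∧ ∀ z ∈ PP n D 𝒯, ∑ j, y j ^ 2 ≤ ∑ j, z j ^ 2} := by
    rintro y ⟨𝒯, h⟩
    exact Set.mem_iUnion.2 ⟨𝒯, h⟩
  refine (Set.finite_iUnion fun 𝒯 => ?_).subset h1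
  apply Set.Subsingleton.finite
  rintro y ⟨hy, hy'⟩ z ⟨hz, hz'⟩
  have h2 : (fun j => (y j + z j) / 2) ∈ PP n D 𝒯 := by
    refine ⟨?_, fun x hx => ?_⟩
    · rw [← Finset.sum_div, Finset.sum_add_distrib, hy.1, hz.1]
      norm_num
    · have h3 := hy.2 x hx
      have h4 := hz.2 x hx
      rw [← Finset.sum_div, Finset.sum_add_distrib]
      linarith
  have h3 := hy' _ h2
  have h4 := hz' _ hy
  have h5 := hy' _ hz
  have h6 : ∑ j, ((y j + z j) / 2) ^ 2 = (∑ j, y j ^ 2 + ∑ j, z j ^ 2) / 2 -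
      ∑ j, (y j - z j) ^ 2 / 4 := by
    rw [← Finset.sum_add_distrib, Finset.sum_div, ← Finset.sum_sub_distrib]
    refine Finset.sum_congr rfl fun j _ => ?_
    ring
  rw [h6] at h3
  have h7 : ∑ j, (y j - z j) ^ 2 / 4 ≤ 0 := by linarith
  have h8 := (Finset.sum_eq_zero_iff_of_nonneg fun j _ => by positivity).1
    (le_antisymm h7 (Finset.sum_nonneg fun j _ => by positivity))
  funext j
  have h9 := h8 j (Finset.mem_univ j)
  have h10 : (y j - z j) ^ 2 = 0 := by linarith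
  have h11 := pow_eq_zero_iff (two_ne_zero) |>.1 h10
  linarith

theorem mem_WW {M V : Type} [Field M] [AddCommGroup V] [Module M V] {n D : ℕ}
    {𝒮 : ∀ d : ℕ, Set (MultilinearMap M (fun _ : Fin d => V) M)}
    (hD : ∀ d, ∀ s ∈ 𝒮 d, d ≤ D) {g : Fin n → V} {a : Fin n → ℝ} (h : Dest 𝒮 g a)
    (hmin : ∀ (e : Fin n → V) (b : Fin n → ℝ), Dest 𝒮 e b → ∑ j, a j ^ 2 ≤ ∑ j, b j ^ 2) :
    a ∈ WW n D := by
  refine ⟨{x | ∃ s ∈ 𝒮 x.1, s (fun k => g (x.2 k)) ≠ 0}, ⟨h.2.2.1, ?_⟩, fun z hz => ?_⟩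
  · rintro x ⟨s, hs, hne⟩
    exact h.2.2.2 _ s hs x.2 hne
  · refine hmin g z ⟨h.1, h.2.1, hz.1, fun d s hs J hne => ?_⟩
    have h5 := hD d s hs
    exact hz.2 ⟨⟨d, by omega⟩, J⟩ ⟨s, hs, hne⟩

/-- a chosen denominator and numerators -/
noncomputable def den {n : ℕ} (w : Fin n → ℝ) : ℕ := by
  classical
  exact if h : ∃ (A : Fin n → ℤ) (m : ℕ), 0 < m ∧ ∀ j, (A j : ℝ) = m * w j then
    h.choose_spec.choose else 1

/-- the numerators -/
noncomputable def num {n : ℕ} (w : Fin n → ℝ) : Fin n → ℤ := by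
  classical
  exact if h : ∃ (A : Fin n → ℤ) (m : ℕ), 0 < m ∧ ∀ j, (A j : ℝ) = m * w j then
    h.choose else 0

theorem den_num {n : ℕ} {w : Fin n → ℝ}
    (h : ∃ (A : Fin n → ℤ) (m : ℕ), 0 < m ∧ ∀ j, (A j : ℝ) = m * w j) :
    0 < den w ∧ ∀ j, (num w j : ℝ) = den w * w j := by
  rw [den, num, dif_pos h, dif_pos h]
  exact h.choose_spec.choose_spec

/-- the exponents of the character -/
noncomputable def qq {n : ℕ} (w : Fin n → ℝ) : Fin n → ℕ :=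
  fun j => ((den w : ℤ) * ∑ j, |num w j| + den w * num w j).toNat

/-- the square of the norm -/
noncomputable def kk {n : ℕ} (w : Fin n → ℝ) : ℕ := (∑ j, num w j ^ 2).toNat

theorem qq_eq {n : ℕ} (w : Fin n → ℝ) (j : Fin n) :
    (qq w j : ℤ) = (den w : ℤ) * ∑ j, |num w j| + den w * num w j := by
  refine Int.toNat_of_nonneg ?_
  rw [← mul_add]
  refine mul_nonneg (Int.natCast_nonneg _) ?_
  have h1 : |num w j| ≤ ∑ j, |num w j| := Finset.single_le_sum (f := fun j => |num w j|)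
    (fun i _ => abs_nonneg _) (Finset.mem_univ j)
  have h2 := neg_abs_le (num w j)
  linarith

theorem kk_eq {n : ℕ} (w : Fin n → ℝ) : (kk w : ℤ) = ∑ j, num w j ^ 2 :=
  Int.toNat_of_nonneg (Finset.sum_nonneg fun j _ => sq_nonneg _)

end Pool.Agent.Helper91.EF
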