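import Pool.Agent.Helper91.EF.Noeth
import Pool.Agent.Helper91.EF.Opt
import Pool.Agent.Helper91.EF.Kod

/-!
Uniform bounds.
-/

set_option autoImplicit false
set_option linter.unusedSectionVars false

namespace Pool.Agent.Helper91.EF

open Module FF Pool.Agent.W602.GT Pool.Agent.W603.LV Pool.Agent.TH143.GT Pool.Agent.Y220.OG
  Pool.Agent.Helper12.BL Pool.Agent.Helper91.HM Pool.Agent.Helper91.HM.Tw

/-- the numbers of tensors -/
abbrev CC (r N0 : ℕ) : Type := ∀ N : Fin (N0 + 1), Fin (r ^ (N : ℕ) + 1)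

/-- the index set of a finite family -/
abbrev YY (r N0 : ℕ) (c : CC r N0) : Type := Σ N : Fin (N0 + 1), Fin (c N : ℕ)

/-- the degrees -/
abbrev yd (r N0 : ℕ) (c : CC r N0) (y : YY r N0 c) : ℕ := (y.1 : ℕ)

theorem NoInvB.mono {K : Type} [Field K] {n : ℕ} {ι : Type} {N : ι → ℕ} [Algebra ℝ K] {B B' : ℕ}
    {T : ∀ i, (Fin (N i) → Fin n) → K} (hB : B ≤ B') (h : NoInvB B' T) : NoInvB B T := by
  intro Q _ _ _ hQ ν p hp
  exact h Q (hQ.trans hB) ν p hp

theorem exists_B1 (r N0 : ℕ) : ∃ B1 : ℕ, ∀ (c : CC r N0) (K : Type) [Field K] [Algebra ℝ K]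
    (T : ∀ x : YY r N0 c, (Fin (Fintype.card (IR (yd r N0 c) (fun _ : Fin r => 0) 1 x)) → Fin r) →
      K), NoInvB B1 T → NoInv T := by
  classical
  have h1 : ∀ c : CC r N0, ∃ B : ℕ, ∀ (K : Type) [Field K] [Algebra ℝ K]
      (T : ∀ x : YY r N0 c, (Fin (Fintype.card (IR (yd r N0 c) (fun _ : Fin r => 0) 1 x)) →
        Fin r) → K), NoInvB B T → NoInv T := fun c => noeth r (YY r N0 c) _
  choose B hB using h1
  refine ⟨Finset.univ.sup B, fun c K _ _ T hT => hB c K T (hT.mono ?_)⟩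
  exact Finset.le_sup (f := B) (Finset.mem_univ c)

theorem exists_B2 (r N0 : ℕ) : ∃ B2 : ℕ, ∀ w ∈ WW r N0, kk w ≤ B2 ∧ ∑ j, qq w j ≤ B2 ∧
    ∀ (c : CC r N0) (K : Type) [Field K] [Algebra ℝ K]
    (T : ∀ x : YY r N0 c, (Fin (Fintype.card (IR (yd r N0 c) (qq w) (kk w) x)) → Fin r) →
      K), NoInvB B2 T → NoInv T := by
  classical
  have h1 : ∀ (w : Fin r → ℝ) (c : CC r N0), ∃ B : ℕ, ∀ (K : Type) [Field K] [Algebra ℝ K]
      (T : ∀ x : YY r N0 c, (Fin (Fintype.card (IR (yd r N0 c) (qq w) (kk w) x)) →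
        Fin r) → K), NoInvB B T → NoInv T := fun w c => noeth r (YY r N0 c) _
  choose B hB using h1
  refine ⟨(WW_finite r N0).toFinset.sup fun w => max (max (kk w) (∑ j, qq w j))
    (Finset.univ.sup (B w)), fun w hw => ?_⟩
  have h2 := Finset.le_sup (f := fun w => max (max (kk w) (∑ j, qq w j)) (Finset.univ.sup (B w)))
    ((WW_finite r N0).mem_toFinset.2 hw)
  beta_reduce at h2
  refine ⟨((le_max_left _ _).trans (le_max_left _ _)).trans h2,
    ((le_max_right _ _).trans (le_max_left _ _)).trans h2, fun c K _ _ T hT => hB w c K T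
      (hT.mono ?_)⟩
  exact ((Finset.le_sup (f := B w) (Finset.mem_univ c)).trans (le_max_right _ _)).trans h2

theorem exists_fam {K : Type} [Field K] [Algebra ℂ K] {V : Type} [AddCommGroup V] [Module K V] {r : ℕ}
    [FiniteDimensional K V] (hr : finrank K V = r) {e : Fin r → V} (he : LinearIndependent K e)
    {N : ℕ} (S : Set (MultilinearMap K (fun _ : Fin N => V) K)) :
    ∃ (c : Fin (r ^ N + 1)) (u : Fin (c : ℕ) → MultilinearMap K (fun _ : Fin N => V) K),
      (∀ i, u i ∈ S) ∧ ∀ t ∈ S, t ∈ Submodule.span K (Set.range u) := by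
  classical
  have hes := Pool.Agent.Helper91.FD.span_top hr he
  obtain ⟨b, hbS, hspan, hli⟩ := exists_linearIndependent K S
  have hfin : Finite b := hli.finite
  have _ := Fintype.ofFinite b
  let φ : MultilinearMap K (fun _ : Fin N => V) K →ₗ[K] ((Fin N → Fin r) → K) :=
    { toFun := fun t J => t fun k => e (J k)
      map_add' := fun t u => rfl
      map_smul' := fun c t => rfl }
  have hφ : Function.Injective φ := by
    rw [← LinearMap.ker_eq_bot, LinearMap.ker_eq_bot']
    intro t ht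
    by_contra hne
    obtain ⟨J, hJ⟩ := exists_ne_of_ne hne he hes
    exact hJ (congrFun ht J)
  have h1 : Fintype.card b ≤ r ^ N := by
    refine hli.fintype_card_le_finrank.trans ((LinearMap.finrank_le_finrank_of_injective hφ).trans
      (le_of_eq ?_))
    rw [Module.finrank_fintype_fun_eq_card, Fintype.card_fun, Fintype.card_fin, Fintype.card_fin]
  refine ⟨⟨Fintype.card b, by omega⟩, fun i => ((Fintype.equivFin b).symm i).1, fun i =>
    hbS ((Fintype.equivFin b).symm i).2, fun t ht => ?_⟩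
  have h2 : t ∈ Submodule.span K b := by
    rw [hspan]
    exact Submodule.subset_span ht
  refine Submodule.span_mono ?_ h2
  intro x hx
  exact ⟨Fintype.equivFin b ⟨x, hx⟩, by simp⟩

end Pool.Agent.Helper91.EF
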