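import Pool.Agent.Helper91.FE.Main
import Pool.Agent.Helper91.EF.Unif

/-!
Proper subspaces without sections of bounded degree.
-/

set_option autoImplicit false
set_option linter.unusedSectionVars false
set_option linter.unusedVariables false

namespace Pool.Agent.Helper91.EF

open Module FF Pool.Agent.W602.GT Pool.Agent.W603.LV Pool.Agent.TH143.GT Pool.Agent.Y220.OG
  Pool.Agent.Helper12.BL Pool.Agent.Helper91.HM Pool.Agent.Helper91.HM.Tw

open Pool.Agent.Helper91.FE (IsTen IsMov IsSec IsFlag flagV)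

open Pool.Agent.Helper91.FD (VReg VLog VInv dl IsFr mem Adp vreg_sum vlog_sum vreg_smul vreg_sub
  span_top exists_adp mem_mono mem_eq finrank_mem lt_restrictV FrOf frOf dl_le dl_nonneg vcrd
  vcrd_act lcv lcv_lt RR_smul' LW LW_smul LW_lt reg_changeV)

variable {K : Type} [Field K] [Algebra ℂ K] {V : Type} [AddCommGroup V] [Module K V] {n r : ℕ}
  {ι : V →ₗ[K] Derivation ℂ K K}

/-- the set of the values of the twisted tensors in a basis -/
def valsB (A0 n : ℕ) (X : Set (Place ℂ K)) (δ γ : Place ℂ K → ℝ) (ρ : ℤ)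
    (ι : V →ₗ[K] Derivation ℂ K K) (κ : ℕ) (e : Fin r → V) (N : ℕ) :
    Set (MultilinearMap K (fun _ : Fin N => V) K) :=
  {t | ∃ (a b : ℤ) (s : (Fin r → V) → MultilinearMap K (fun _ : Fin N => V) K),
    (|a| ≤ A0 ∧ |b| ≤ A0) ∧ 0 < (N : ℤ) + r * a ∧ 0 < (N : ℤ) + r * a + ρ * b ∧
      IsMov n X δ γ ι κ a b s ∧ t = s e}

/-- the bound for the exponents -/
def Ebd (B k S N0 A0 : ℕ) : ℕ := B * (k * (N0 + A0) + 2 * S)

theorem Ebd_mono {B k S N0 A0 k' S' : ℕ} (hk : k ≤ k') (hS : S ≤ S') :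
    Ebd B k S N0 A0 ≤ Ebd B k' S' N0 A0 :=
  Nat.mul_le_mul_left _ (Nat.add_le_add (Nat.mul_le_mul_right _ hk) (Nat.mul_le_mul_left _ hS))

theorem sum_bd {Q : Type} [Fintype Q] {B A0 : ℕ} (hQ : Fintype.card Q ≤ B) {a : Q → ℤ}
    (ha : ∀ x, |a x| ≤ A0) : |∑ x, a x| ≤ (B : ℤ) * A0 := by
  refine (Finset.abs_sum_le_sum_abs _ _).trans ((Finset.sum_le_sum fun x _ => ha x).trans ?_)
  rw [Finset.sum_const, Finset.card_univ, nsmul_eq_mul]
  exact mul_le_mul_of_nonneg_right (by exact_mod_cast hQ) (Int.natCast_nonneg _)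

theorem e_bd {Q : Type} [Fintype Q] {B k q S N0 A0 r m' : ℕ} (hr0 : 0 < r)
    (hQ : Fintype.card Q ≤ B) {N : Q → ℕ} (hN : ∀ x, N x ≤ N0) {a : Q → ℤ}
    (ha : ∀ x, |a x| ≤ A0) (hm : (k : ℤ) * ∑ x, (N x : ℤ) + Fintype.card Q * S = r * m')
    (hq : q ≤ S) :
    |(m' : ℤ) + k * ∑ x, a x - Fintype.card Q * q| ≤ (Ebd B k S N0 A0 : ℕ) := by
  have h1 := sum_bd hQ ha
  have h2 := sum_bd (a := fun x => (N x : ℤ)) hQ (A0 := N0) fun x => by
    rw [Nat.abs_cast]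
    exact_mod_cast hN x
  have h3 : (0 : ℤ) ≤ ∑ x, (N x : ℤ) := Finset.sum_nonneg fun x _ => Int.natCast_nonneg _
  rw [abs_of_nonneg h3] at h2
  have h4 : (m' : ℤ) ≤ r * m' := by
    have h5 : (1 : ℤ) ≤ r := by exact_mod_cast hr0
    nlinarith [Int.natCast_nonneg m']
  have hk : (0 : ℤ) ≤ k := Int.natCast_nonneg _
  have h5 : (k : ℤ) * ∑ x, (N x : ℤ) ≤ k * (B * N0) := mul_le_mul_of_nonneg_left h2 hk
  have h6 : |(k : ℤ) * ∑ x, a x| ≤ k * (B * A0) := by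
    rw [abs_mul, abs_of_nonneg hk]
    exact mul_le_mul_of_nonneg_left h1 hk
  have hQ' : (Fintype.card Q : ℤ) ≤ B := by exact_mod_cast hQ
  have h7 : (Fintype.card Q : ℤ) * S ≤ B * S := mul_le_mul_of_nonneg_right hQ' (Int.natCast_nonneg _)
  have h8 : (Fintype.card Q : ℤ) * q ≤ B * S :=
    mul_le_mul hQ' (by exact_mod_cast hq) (Int.natCast_nonneg _) (Int.natCast_nonneg _)
  have h9 : (0 : ℤ) ≤ (Fintype.card Q : ℤ) * q := by positivity
  have h10 := abs_le.1 h6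
  have h11 : (0 : ℤ) ≤ B * S := by positivity
  have h12 : (0 : ℤ) ≤ k * (B * N0) := by positivity
  have h13 : (0 : ℤ) ≤ (m' : ℤ) := Int.natCast_nonneg _
  rw [Ebd]
  push_cast
  rw [abs_le]
  constructor <;> nlinarith

theorem b_bd {Q : Type} [Fintype Q] {B k S N0 A0 : ℕ}
    (hQ : Fintype.card Q ≤ B) {b : Q → ℤ} (hb : ∀ x, |b x| ≤ A0) :
    |(k : ℤ) * ∑ x, b x| ≤ (Ebd B k S N0 A0 : ℕ) := by
  have h1 := sum_bd hQ hb
  have hk : (0 : ℤ) ≤ k := Int.natCast_nonneg _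
  rw [abs_mul, abs_of_nonneg hk]
  refine (mul_le_mul_of_nonneg_left h1 hk).trans ?_
  rw [Ebd]
  push_cast
  have h2 : (0 : ℤ) ≤ (B : ℤ) * (k * N0) := by positivity
  have h3 : (0 : ℤ) ≤ (B : ℤ) * (2 * S) := by positivity
  nlinarith

theorem destab [Algebra ℝ K] [IsScalarTower ℝ ℂ K] [Algebra.EssFiniteType ℂ K]
    (hn : Algebra.trdeg ℂ K = n) (hι : Function.Injective ι) [FiniteDimensional K V]
    (hr : finrank K V = r) (hr0 : 0 < r) {X : Set (Place ℂ K)} {δ γ : Place ℂ K → ℝ} {ρ : ℤ}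
    (hδ : ∀ P ∈ X, 0 ≤ δ P) {κ : ℕ} {Y : Type} [Finite Y] {N : Y → ℕ} {B1 N0 A0 : ℕ}
    (hB1 : ∀ (T : ∀ x : Y, (Fin (Fintype.card (IR N (fun _ : Fin r => 0) 1 x)) → Fin r) → K),
      NoInvB B1 T → NoInv T)
    (hκ : ¬ KodGeB (Phi (Ebd B1 1 0 N0 A0) 0) r n X δ γ ρ ι κ) (hN0 : ∀ x, N x ≤ N0)
    {a b : Y → ℤ} (habA : ∀ x, |a x| ≤ A0 ∧ |b x| ≤ A0) (ha : ∀ x, 0 < (N x : ℤ) + r * a x)
    (hab : ∀ x, 0 < (N x : ℤ) + r * a x + ρ * b x)
    (s : ∀ x, (Fin r → V) → MultilinearMap K (fun _ : Fin (N x) => V) K)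
    (hs : ∀ x, IsMov n X δ γ ι κ (a x) (b x) (s x)) {e : Fin r → V} (he : LinearIndependent K e) :
    ∃ (b : Fin r → V) (w : Fin r → ℤ), LinearIndependent K b ∧ ∑ j, w j = 0 ∧
      ∀ (x : Y) (J : Fin (N x) → Fin r), s x e (fun k => b (J k)) ≠ 0 → ∑ k, w (J k) < 0 := by
  classical
  let T : ∀ x, (Fin (N x) → Fin r) → K := vcrd (fun x => s x e) e
  have hlead : ∀ D : Fin r → V, lcv (fun _ => 0) 0 s D = vcrd (fun x => s x D) D := by
    intro D
    funext x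
    rw [lcv]
    exact lead_of_hom fun I _ => by simp
  have hNI : NoInv (RR (fun _ => 0) (fun _ => 0) 1 T) := by
    refine hB1 _ ?_
    intro Q hQf hQd hQn hQB ν p hp
    by_contra hne
    apply hκ
    obtain ⟨I0, -, hI0⟩ := Finset.exists_ne_zero_of_sum_ne_zero hne
    have hpI0 : p I0 ≠ 0 := fun h => hI0 (by rw [h, map_zero, zero_mul])
    obtain ⟨m', hcard, hm'⟩ := hp.exists_m hr0 hpI0
    obtain ⟨q0⟩ : Nonempty Q := hQn
    have hQ0 : 0 < Fintype.card Q := Fintype.card_pos_iff.2 ⟨q0⟩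
    let ω : (Fin r → V) → K := LW (M := fun x => N (ν x)) (fun _ => 0) 0 (fun _ => 0) 1
      (fun x => s (ν x)) p
    obtain ⟨h0, f, hf, hfs⟩ := hs (ν q0)
    obtain ⟨e', he'⟩ : ∃ e' : Fin r → ℤ, ∀ j, e' j =
      m' + ((1 : ℕ) : ℤ) * ∑ x, a (ν x) - Fintype.card Q * ((0 : ℕ) : ℤ) := ⟨_, fun _ => rfl⟩
    have hgen : ∀ c : K, IsTen n X δ γ ι (a (ν q0)) (b (ν q0)) (fun B => c • s (ν q0) B) →
        IsFlag n X δ γ ι e e' (((1 : ℕ) : ℤ) * ∑ x, b (ν x)) (fun D => c ^ 1 * ω D) := by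
      intro c hc
      have h1 := flagV (M := fun x => N (ν x)) hδ (g := e) (A := fun _ => 0) (w := 0) one_pos
        (q := fun _ => 0) (κ0 := 0) (fun j => by simp) (k := 1)
        (s := fun x B => (if x = q0 then c else 1) • s (ν x) B) (a := fun x => a (ν x))
        (b := fun x => b (ν x)) (fun x => by
          by_cases hx : x = q0
          · subst hx
            simp only [if_true]
            exact hc
          · simp only [if_neg hx, one_smul]
            exact (hs _).1) (fun D hD hDA x J hne' => by simp) hp hm' hQ0 he'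
      have h2 : LW (M := fun x => N (ν x)) (fun _ => 0) 0 (fun _ => 0) 1
          (fun x B => (if x = q0 then c else 1) • s (ν x) B) p = fun D => c ^ 1 * ω D := by
        funext D
        have h3 := LW_smul (M := fun x => N (ν x)) (fun _ => 0) 0 (fun _ => 0) 1
          (fun x => s (ν x)) p (fun x => if x = q0 then c else 1) D
        rw [Finset.prod_ite_eq' Finset.univ q0 (fun _ => c), if_pos (Finset.mem_univ _)] at h3
        exact h3
      rw [h2] at h1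
      exact h1
    have h4 : (∑ x, (N (ν x) : ℤ)) = r * m' := by
      have h3 : ∀ x, Fintype.card (IR N (fun _ : Fin r => 0) 1 (ν x)) = N (ν x) := by
        intro x
        rw [Fintype.card_sum, Fintype.card_sigma, Fintype.card_sigma]
        simp
      rw [Fintype.card_sigma] at hcard
      simp only [Fintype.card_fin] at hcard
      rw [Finset.sum_congr rfl fun x _ => h3 x] at hcard
      exact_mod_cast hcard
    have hkey : ∑ j, e' j = ∑ x, ((N (ν x) : ℤ) + r * a (ν x)) := by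
      rw [Finset.sum_add_distrib, ← Finset.mul_sum, h4]
      simp only [he']
      rw [Finset.sum_const, Finset.card_univ, Fintype.card_fin, nsmul_eq_mul]
      push_cast
      ring
    refine kod_of_mems hn hι hr hr0 hδ (b := e) (e := e') he ?_
      (β := ((1 : ℕ) : ℤ) * ∑ x, b (ν x)) ?_
      (ω := ω) ?_ ⟨e, ⟨he, fun j => Submodule.subset_span ⟨j, le_refl (e' j), rfl⟩⟩, ?_⟩
      hf (fun j => ?_) (fun j => ?_) ?_ fun j hj => ?_
    · rw [hkey]
      exact Finset.sum_pos (fun x _ => ha _) ⟨q0, Finset.mem_univ _⟩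
    · rw [hkey, Nat.cast_one, one_mul, Finset.mul_sum, ← Finset.sum_add_distrib]
      exact Finset.sum_pos (fun x _ => hab _) ⟨q0, Finset.mem_univ _⟩
    · have h1 := hgen 1 (by simpa only [one_smul] using h0)
      simpa only [one_pow, one_mul] using h1
    · change ∑ I, algebraMap ℝ K (p I) * ∏ x, RR (fun _ => 0) (fun _ => 0) 1
        (lcv (N := fun x => N (ν x)) (fun _ => 0) 0 (fun x => s (ν x)) e) x
          (fun l => I ⟨x, l⟩) ≠ 0
      have h1 : lcv (N := fun x => N (ν x)) (fun _ => 0) 0 (fun x => s (ν x)) e =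
          fun x => T (ν x) := by
        funext x
        exact congrFun (hlead e) (ν x)
      rw [h1]
      exact hne
    · have h1 := hgen (f j) (hfs j)
      simpa only [pow_one] using h1
    · rw [he']
      refine e_bd hr0 hQB (N := fun x => N (ν x)) (fun x => hN0 _) (fun x => (habA _).1) ?_ le_rfl
      rw [h4]
      push_cast
      ring
    · exact b_bd hQB fun x => (habA _).2
    · exfalso
      apply hj
      rw [eq_top_iff, ← span_top hr he, Submodule.span_le]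
      rintro _ ⟨i, rfl⟩
      refine Submodule.subset_span ⟨i, ?_, rfl⟩
      rw [Set.mem_ofPred_eq, he', he']
  obtain ⟨g, w, hg, hw, hact⟩ := hmk hr0 (RR (fun _ => 0) (fun _ => 0) 1 T) hNI
  refine ⟨lt g e, w, lt_li.2 ⟨he, hg⟩, hw, fun x J hne => ?_⟩
  have h1 : act g (T x) J ≠ 0 := by
    have h2 := congrFun (vcrd_act (fun x => s x e) e g x) J
    rw [← h2]
    exact hne
  obtain ⟨J', hJ'⟩ : ∃ J' : Fin (Fintype.card (IR N (fun _ : Fin r => 0) 1 x)) → Fin r, ∀ y,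
      J' y = Sum.elim (fun y : (Σ _ : Fin 1, Fin (N x)) => J y.2)
        (fun z : P0 (fun _ : Fin r => 0) => z.1)
        ((Fintype.equivFin (IR N (fun _ : Fin r => 0) 1 x)).symm y) := ⟨_, fun _ => rfl⟩
  have hJl : ∀ y : Fin 1, ∀ l : Fin (N x),
      J' (Fintype.equivFin (IR N (fun _ : Fin r => 0) 1 x) (Sum.inl ⟨y, l⟩)) = J l := fun y l => by
    rw [hJ', Equiv.symm_apply_apply]
    rfl
  have hP0 : IsEmpty (P0 (fun _ : Fin r => 0)) := ⟨fun z => z.2.elim0⟩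
  have h2 : act g (RR (fun _ => 0) (fun _ => 0) 1 T x) J' ≠ 0 := by
    rw [act_RR (A := fun _ => 0) (fun _ _ _ => rfl) 1 T x (fun _ _ _ => rfl) J']
    refine mul_ne_zero ?_ ?_
    · rw [chi, Matrix.det_isEmpty]
      exact one_ne_zero
    · rw [RR]
      refine mul_ne_zero ?_ ?_
      · rw [wordT]
        refine Finset.prod_ne_zero_iff.2 fun y _ => ?_
        simp only [hJl]
        exact h1
      · rw [D0, Matrix.det_isEmpty]
        exact one_ne_zero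
  have h3 := hact x J' h2
  rw [sum_IR (fun _ : Fin r => 0) 1 x] at h3
  simp only [hJl] at h3
  simpa using h3

theorem boundedV [Algebra ℝ K] [IsScalarTower ℝ ℂ K] [Algebra.EssFiniteType ℂ K]
    (hn : Algebra.trdeg ℂ K = n) (hι : Function.Injective ι) [FiniteDimensional K V]
    (hr : finrank K V = r) (hr0 : 0 < r) {X : Set (Place ℂ K)} {δ γ : Place ℂ K → ℝ} {ρ : ℤ}
    (hδ : ∀ P ∈ X, 0 ≤ δ P) {κ : ℕ} {B1 N0 A0 : ℕ} (hB1 : ∀ (c : CC r N0)
    (T : ∀ x : YY r N0 c, (Fin (Fintype.card (IR (yd r N0 c) (fun _ : Fin r => 0) 1 x)) → Fin r) →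
      K), NoInvB B1 T → NoInv T)
    (hκ : ¬ KodGeB (Phi (Ebd B1 1 0 N0 A0) 0) r n X δ γ ρ ι κ) {e : Fin r → V}
    (he : LinearIndependent K e) :
    ∃ (b : Fin r → V) (w : Fin r → ℤ), LinearIndependent K b ∧
      ∑ j, w j = 0 ∧ ∀ N, N ≤ N0 → ∀ t ∈ valsB A0 n X δ γ ρ ι κ e N, ∀ J : Fin N → Fin r,
        t (fun k => b (J k)) ≠ 0 → ∑ k, w (J k) < 0 := by
  classical
  choose c u hu1 hu2 using fun N : Fin (N0 + 1) => exists_fam hr he
    (valsB A0 n X δ γ ρ ι κ e (N : ℕ))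
  have h2 : ∀ i : YY r N0 c, ∃ (a b : ℤ)
      (s : (Fin r → V) → MultilinearMap K (fun _ : Fin i.1 => V) K), (|a| ≤ A0 ∧ |b| ≤ A0) ∧
      0 < ((i.1 : ℕ) : ℤ) + r * a ∧ 0 < ((i.1 : ℕ) : ℤ) + r * a + ρ * b ∧
        IsMov n X δ γ ι κ a b s ∧ u i.1 i.2 = s e := fun i => hu1 _ _
  choose a b' s hA0 ha hab hs hse using h2
  obtain ⟨b, w, hb, hw, hdes⟩ := destab hn hι hr hr0 hδ (Y := YY r N0 c) (N := yd r N0 c) (hB1 c)
    hκ (fun x => by
      have := x.1.2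
      change (x.1 : ℕ) ≤ N0
      omega) hA0 ha hab s hs he
  refine ⟨b, w, hb, hw, fun N hNd t ht J hne => ?_⟩
  by_contra hlt
  apply hne
  have h2 := hu2 ⟨N, by omega⟩ t ht
  clear ht hne
  induction h2 using Submodule.span_induction with
  | mem t ht =>
    obtain ⟨i, rfl⟩ := ht
    by_contra hne'
    have h3 := hse ⟨⟨N, by omega⟩, i⟩
    have h4 : u ⟨N, by omega⟩ i = s ⟨⟨N, by omega⟩, i⟩ e := h3
    rw [h4] at hne'
    exact hlt (hdes ⟨⟨N, by omega⟩, i⟩ J hne')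
  | zero => rfl
  | add t u _ _ ht hu => rw [add_apply, ht, hu, add_zero]
  | smul c t _ ht => rw [smul_apply, ht, smul_zero]

/-- **Proper subspaces without sections.** -/
theorem proper_aux [Algebra ℝ K] [IsScalarTower ℝ ℂ K] [Algebra.EssFiniteType ℂ K]
    (hn : Algebra.trdeg ℂ K = n) (hι : Function.Injective ι) [FiniteDimensional K V]
    (hr : finrank K V = r) (hr0 : 0 < r) {X : Set (Place ℂ K)} {δ γ : Place ℂ K → ℝ} {ρ : ℤ}
    (hδ : ∀ P ∈ X, 0 ≤ δ P) {κ : ℕ} {B' B1 B2 N0 A0 : ℕ} (hB1 : ∀ (c : CC r N0)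
    (T : ∀ x : YY r N0 c, (Fin (Fintype.card (IR (yd r N0 c) (fun _ : Fin r => 0) 1 x)) → Fin r) →
      K), NoInvB B1 T → NoInv T) (hB2 : ∀ w ∈ WW r N0, kk w ≤ B2 ∧ ∑ j, qq w j ≤ B2 ∧
    ∀ (c : CC r N0)
    (T : ∀ x : YY r N0 c, (Fin (Fintype.card (IR (yd r N0 c) (qq w) (kk w) x)) → Fin r) →
      K), NoInvB B2 T → NoInv T)
    (hκ1 : ¬ KodGeB (Phi (Ebd B1 1 0 N0 A0) 0) r n X δ γ ρ ι κ)
    (hκ : ¬ KodGeB (Phi (Ebd B2 B2 B2 N0 A0) B') r n X δ γ ρ ι κ) {M0 : ℕ} (hM0 : M0 ≤ N0)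
    {a0 b0 : ℤ} (hA0' : |a0| ≤ A0 ∧ |b0| ≤ A0)
    (hN0 : 0 < (M0 : ℤ) + r * a0) (hN0b : 0 < (M0 : ℤ) + r * a0 + ρ * b0)
    {s0 : (Fin r → V) → MultilinearMap K (fun _ : Fin M0 => V) K}
    (hs0 : IsMov n X δ γ ι κ a0 b0 s0) (hs0n : ∃ B, LinearIndependent K B ∧ s0 B ≠ 0) {e0 : Fin r → V}
    (he0 : LinearIndependent K e0) :
    ∃ F : Submodule K V, F ≠ ⊥ ∧ F ≠ ⊤ ∧
      ¬ KodGeB B' (finrank K F) n X δ γ ρ (ι ∘ₗ F.subtype) 0 ∧
      ∀ (σ : K ≃+* K) (τ : V ≃+ V), (∀ (c : K) (x : V), τ (c • x) = σ c • τ x) →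
        (∀ d, ∀ t ∈ valsB A0 n X δ γ ρ ι κ e0 d, ∃ t' ∈ valsB A0 n X δ γ ρ ι κ e0 d,
          ∀ x : Fin d → V, t (fun k => τ (x k)) ≠ 0 → t' x ≠ 0) → ∀ v ∈ F, τ v ∈ F := by
  classical
  have he0s := span_top hr he0
  let 𝒮 : ∀ d : ℕ, Set (MultilinearMap K (fun _ : Fin d => V) K) :=
    fun d => {t | d ≤ N0 ∧ t ∈ valsB A0 n X δ γ ρ ι κ e0 d}
  obtain ⟨b1, a1, hb1, ha1, hdes⟩ := boundedV hn hι hr hr0 hδ hB1 hκ1 he0
  have hDest1 : Dest 𝒮 b1 (fun j => (a1 j : ℝ)) := by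
    refine ⟨hb1, span_top hr hb1, ?_, ?_⟩
    · beta_reduce
      exact_mod_cast ha1
    · rintro d s ⟨hdm, hs⟩ J hne
      have h2 := hdes d hdm s hs J hne
      have h3 : ∑ k, a1 (J k) ≤ -1 := by omega
      beta_reduce
      exact_mod_cast h3
  have h𝒮D : ∀ d, ∀ s ∈ 𝒮 d, d ≤ N0 := fun d s hs => hs.1
  obtain ⟨g, w, hg, hmin⟩ := exists_min h𝒮D hDest1
  have hwW : w ∈ WW r N0 := mem_WW h𝒮D hg hmin
  obtain ⟨hkB, hqB, hB2w⟩ := hB2 w hwW
  obtain ⟨A, hAdef⟩ : ∃ A : Fin r → ℤ, A = num w := ⟨_, rfl⟩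
  obtain ⟨m, hmdef⟩ : ∃ m : ℕ, m = den w := ⟨_, rfl⟩
  obtain ⟨hm, hA⟩ := den_num (rational h𝒮D hg hmin)
  rw [← hmdef] at hm
  rw [← hAdef, ← hmdef] at hA
  have hmR : (0 : ℝ) < m := by exact_mod_cast hm
  have hA0 : ∑ j, A j = 0 := by
    have h1 : ((∑ j, A j : ℤ) : ℝ) = 0 := by
      push_cast
      rw [Finset.sum_congr rfl fun j _ => hA j, ← Finset.mul_sum, hg.2.2.1, mul_zero]
    exact_mod_cast h1
  have hAw : ∀ i j, A i ≤ A j ↔ w i ≤ w j := by
    intro i j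
    have h1 : (A i : ℝ) ≤ A j ↔ w i ≤ w j := by
      rw [hA, hA]
      exact mul_le_mul_iff_right₀ hmR
    rw [← h1]
    exact Int.cast_le.symm
  have hsumA : ∀ {d : ℕ} (J : Fin d → Fin r), ((∑ k, A (J k) : ℤ) : ℝ) = m * ∑ k, w (J k) := by
    intro d J
    push_cast
    rw [Finset.mul_sum]
    exact Finset.sum_congr rfl fun k _ => hA _
  -- adapted bases
  have hDestD : ∀ D : Fin r → V, LinearIndependent K D →
      (∀ j, D j ∈ Submodule.span K (g '' {l | A j ≤ A l})) → Dest 𝒮 D w := by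
    intro D hD hDA
    refine hg.change hD (span_top hr hD) hg.2.2.1 fun j => ?_
    have h1 := hDA j
    have h2 : {l | A j ≤ A l} = {l | w j ≤ w l} := by
      ext l
      exact hAw j l
    rwa [h2] at h1
  have hval : ∀ {d : ℕ} {a b : ℤ} {s : (Fin r → V) →
      MultilinearMap K (fun _ : Fin d => V) K}, IsMov n X δ γ ι κ a b s →
      ∀ D, LinearIndependent K D → ∃ c : K, c ≠ 0 ∧ s D = c • s e0 := by
    intro d a b s hs D hD
    obtain ⟨C, hC⟩ := exists_lt (D := D) he0s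
    have h3 := (lt_li.1 (hC ▸ hD)).2
    refine ⟨C.det ^ a, zpow_ne_zero _ h3, ?_⟩
    rw [hC]
    exact hs.1.1 C e0 he0 h3
  have hsupp0 : ∀ {d : ℕ} {a b : ℤ} {s : (Fin r → V) →
      MultilinearMap K (fun _ : Fin d => V) K}, d ≤ N0 → (|a| ≤ A0 ∧ |b| ≤ A0) →
      0 < (d : ℤ) + r * a →
      0 < (d : ℤ) + r * a + ρ * b → IsMov n X δ γ ι κ a b s → ∀ D, LinearIndependent K D →
      (∀ j, D j ∈ Submodule.span K (g '' {l | A j ≤ A l})) → ∀ J : Fin d → Fin r,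
        s D (fun k => D (J k)) ≠ 0 → ∑ k, A (J k) ≤ -m := by
    intro d a b s hd haA ha hab hs D hD hDA J hne
    obtain ⟨c, hc, hce⟩ := hval hs D hD
    have h1 : s e0 (fun k => D (J k)) ≠ 0 := by
      intro h0
      apply hne
      rw [hce, smul_apply, h0, smul_zero]
    have h2 := (hDestD D hD hDA).2.2.2 d (s e0) ⟨hd, a, b, s, haA, ha, hab, hs, rfl⟩ J h1
    have h3 : ((∑ k, A (J k) : ℤ) : ℝ) ≤ ((-m : ℤ) : ℝ) := by
      rw [hsumA]
      push_cast
      nlinarith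
    exact_mod_cast h3
  -- the weights are not zero
  have hk : 0 < ∑ j, A j ^ 2 := by
    obtain ⟨B, hB, hne⟩ := hs0n
    obtain ⟨J, hJ⟩ := exists_ne_of_ne (t := s0 g) (by
      obtain ⟨c, hc, hce⟩ := hval hs0 B hB
      obtain ⟨c', hc', hce'⟩ := hval hs0 g hg.1
      rw [hce']
      rw [hce] at hne
      exact smul_ne_zero hc' fun h0 => hne (by rw [h0, smul_zero])) hg.1 hg.2.1
    have h1 := hsupp0 hM0 hA0' hN0 hN0b hs0 g hg.1
      (fun j => Submodule.subset_span ⟨j, le_refl (A j), rfl⟩) J hJ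
    refine lt_of_le_of_ne (Finset.sum_nonneg fun j _ => sq_nonneg _) fun h0 => ?_
    have h2 : ∀ j, A j = 0 := fun j => by
      have h3 := (Finset.sum_eq_zero_iff_of_nonneg fun j _ => sq_nonneg (A j)).1 h0.symm j
        (Finset.mem_univ j)
      exact pow_eq_zero_iff (two_ne_zero) |>.1 h3
    simp only [h2, Finset.sum_const_zero] at h1
    omega
  obtain ⟨k, hkdef⟩ : ∃ k : ℕ, k = kk w := ⟨_, rfl⟩
  have hkk : (k : ℤ) = ∑ j, A j ^ 2 := by rw [hkdef, kk_eq, hAdef]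
  have hk0 : 0 < k := by
    rw [← hkk] at hk
    exact_mod_cast hk
  -- the exponents of the character
  obtain ⟨κ0, hκ0⟩ : ∃ κ0 : ℤ, κ0 = m * ∑ j, |A j| := ⟨_, rfl⟩
  obtain ⟨q, hqdef⟩ : ∃ q : Fin r → ℕ, q = qq w := ⟨_, rfl⟩
  have hq : ∀ j, (q j : ℤ) = κ0 + m * A j := fun j => by
    rw [hqdef, qq_eq, hκ0, hAdef, hmdef]
  rw [← hkdef] at hkB
  rw [← hqdef] at hqB
  rw [← hqdef, ← hkdef] at hB2w
  -- a finite family
  choose c u hu1 hu2 using fun N : Fin (N0 + 1) => exists_fam hr he0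
    (valsB A0 n X δ γ ρ ι κ e0 (N : ℕ))
  have h2 : ∀ i : YY r N0 c, ∃ (a b : ℤ)
      (s : (Fin r → V) → MultilinearMap K (fun _ : Fin i.1 => V) K), (|a| ≤ A0 ∧ |b| ≤ A0) ∧
      0 < ((i.1 : ℕ) : ℤ) + r * a ∧ 0 < ((i.1 : ℕ) : ℤ) + r * a + ρ * b ∧
        IsMov n X δ γ ι κ a b s ∧ u i.1 i.2 = s e0 := fun i => hu1 _ _
  choose a b s haA ha hab hs hse using h2
  have hle : ∀ i : YY r N0 c, (i.1 : ℕ) ≤ N0 := fun i => by
    have := i.1.2
    omega
  let T : ∀ i : YY r N0 c, (Fin (i.1 : ℕ) → Fin r) → K :=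
    lcv (N := yd r N0 c) A (-m) s g
  have hgA : ∀ j, g j ∈ Submodule.span K (g '' {l | A j ≤ A l}) := fun j =>
    Submodule.subset_span ⟨j, le_refl (A j), rfl⟩
  -- the perturbation inequality
  have PI : ∀ C : Matrix (Fin r) (Fin r) K, C.det ≠ 0 → (∀ i j, C i j ≠ 0 → A i = A j) →
      ∀ v : Fin r → ℝ, ∑ j, v j = 0 → ∀ M' : ℝ,
        (∀ i J, act C (T i) J ≠ 0 → ∑ l, v (J l) ≤ M') →
          0 ≤ m * ∑ j, A j * v j + M' * k := by
    intro C hC hCA v hv M' hM'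
    have hD : LinearIndependent K (lt C g) := lt_li.2 ⟨hg.1, hC⟩
    have hDA : ∀ j, lt C g j ∈ Submodule.span K (g '' {l | A j ≤ A l}) := by
      intro j
      refine Submodule.sum_mem _ fun l _ => ?_
      by_cases h : C j l = 0
      · rw [h, zero_smul]
        exact Submodule.zero_mem _
      · exact Submodule.smul_mem _ _ (Submodule.subset_span ⟨l, (hCA j l h).le, rfl⟩)
    have h1 := pert h𝒮D (hDestD _ hD hDA) hmin v hv M' (by
      rintro d t ⟨hdN, ht⟩ J hne hJ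
      -- a member of the finite family
      have hdlt : d < N0 + 1 := by omega
      have h2 : ∃ i, u ⟨d, hdlt⟩ i (fun k => lt C g (J k)) ≠ 0 := by
        by_contra hcon
        push Not at hcon
        apply hne
        have h3 := hu2 ⟨d, hdlt⟩ t ht
        clear hne ht
        induction h3 using Submodule.span_induction with
        | mem u hu =>
          obtain ⟨i, rfl⟩ := hu
          exact hcon i
        | zero => rfl
        | add u u' _ _ hu hu' => rw [add_apply, hu, hu', add_zero]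
        | smul c u _ hu => rw [smul_apply, hu, smul_zero]
      obtain ⟨iu, hu⟩ := h2
      have h3 := hse ⟨⟨d, hdlt⟩, iu⟩
      have h4 : u ⟨d, hdlt⟩ iu = s ⟨⟨d, hdlt⟩, iu⟩ e0 := h3
      refine hM' ⟨⟨d, hdlt⟩, iu⟩ J ?_
      obtain ⟨x0, hx0, hce⟩ := hval (hs ⟨⟨d, hdlt⟩, iu⟩) g hg.1
      have h5 := lead_act (A := A) (w := -m) (T := vcrd (N := yd r N0 c) (fun x => s x g) g ⟨⟨d, hdlt⟩, iu⟩) (fun I hI =>
          hsupp0 (hle _) (haA _) (ha _) (hab _) (hs _) g hg.1 hgA I hI) (g := C) (fun i j h => (hCA i j h).le)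
      have h6 : dg A C = C := by
        ext i j
        rw [dg_apply]
        split_ifs with h
        · rfl
        · by_contra hne'
          exact h (hCA i j (Ne.symm hne'))
      rw [h6] at h5
      have h7 : act C (T ⟨⟨d, hdlt⟩, iu⟩) J = lead A (-m) (act C (vcrd (N := yd r N0 c) (fun x => s x g) g
          ⟨⟨d, hdlt⟩, iu⟩)) J := (congrFun h5 J).symm
      have hJ' : ∑ k, A (J k) = -m := by
        have h8 : ((∑ k, A (J k) : ℤ) : ℝ) = ((-m : ℤ) : ℝ) := by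
          rw [hsumA, hJ]
          push_cast
          ring
        exact_mod_cast h8
      rw [h7, lead]
      have h9 : (if ∑ k, A (J k) = -(m : ℤ) then act C (vcrd (N := yd r N0 c) (fun x => s x g) g
          ⟨⟨d, hdlt⟩, iu⟩) J else 0) = act C (vcrd (N := yd r N0 c) (fun x => s x g) g
          ⟨⟨d, hdlt⟩, iu⟩) J := if_pos hJ'
      rw [h9]
      have h10 := congrFun (vcrd_act (N := yd r N0 c) (fun x => s x g) g C
          ⟨⟨d, hdlt⟩, iu⟩) J
      rw [← h10]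
      change s ⟨⟨d, hdlt⟩, iu⟩ g (fun k => lt C g (J k)) ≠ 0
      rw [hce, smul_apply, ← h4]
      exact smul_ne_zero hx0 hu)
    have h2 : m * ∑ j, (A j : ℝ) * v j + M' * k = m ^ 2 * (∑ j, w j * v j + M' * ∑ j, w j ^ 2) := by
      have h3 : (k : ℝ) = ∑ j, (A j : ℝ) ^ 2 := by exact_mod_cast hkk
      have h4 : ∑ j, (A j : ℝ) * v j = m * ∑ j, w j * v j := by
        rw [Finset.mul_sum]
        refine Finset.sum_congr rfl fun j _ => ?_
        rw [hA]
        ring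
      have h5 : ∑ j, (A j : ℝ) ^ 2 = m ^ 2 * ∑ j, w j ^ 2 := by
        rw [Finset.mul_sum]
        refine Finset.sum_congr rfl fun j _ => ?_
        rw [hA]
        ring
      rw [h3, h4, h5]
      ring
    rw [h2]
    exact mul_nonneg (sq_nonneg _) h1
  have hTw : ∀ i (J : Fin (i.1 : ℕ) → Fin r), T i J ≠ 0 → ∑ l, A (J l) = -m := by
    intro i J hne
    by_contra h
    exact hne (if_neg h)
  have hnot := not_noInv (N := yd r N0 c)
    hr0 T A m hA0 q κ0 hq k hkk hk0 hTw PI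
  replace hnot : ¬ NoInvB B2 (RR A q k T) := fun h => hnot (hB2w c _ h)
  rw [NoInvB] at hnot
  push Not at hnot
  obtain ⟨Q, hQf, hQd, hQn, hQB, ν, p, hp, hne⟩ := hnot
  obtain ⟨I0, -, hI0⟩ := Finset.exists_ne_zero_of_sum_ne_zero hne
  have hpI0 : p I0 ≠ 0 := fun h => hI0 (by rw [h, map_zero, zero_mul])
  obtain ⟨m', hcard, hm'⟩ := hp.exists_m hr0 hpI0
  obtain ⟨q0⟩ : Nonempty Q := hQn
  have hQ0 : 0 < Fintype.card Q := Fintype.card_pos_iff.2 ⟨q0⟩
  obtain ⟨e, he⟩ : ∃ e : Fin r → ℤ, ∀ j, e j = m' + k * ∑ x, a (ν x) - Fintype.card Q * q j :=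
    ⟨_, fun _ => rfl⟩
  have hQ0' : (0 : ℤ) < Fintype.card Q := by exact_mod_cast hQ0
  have hm0' : (0 : ℤ) < m := by exact_mod_cast hm
  have heA : ∀ i j, e j ≤ e i ↔ A i ≤ A j := by
    intro i j
    rw [he, he, hq, hq]
    constructor
    · intro h
      have h1 : (Fintype.card Q : ℤ) * (κ0 + m * A i) ≤ Fintype.card Q * (κ0 + m * A j) := by
        linarith
      have h2 := le_of_mul_le_mul_left h1 hQ0'
      have h3 : (m : ℤ) * A i ≤ m * A j := by linarith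
      exact le_of_mul_le_mul_left h3 hm0'
    · intro h
      have h3 := mul_le_mul_of_nonneg_left h hm0'.le
      have h2 : κ0 + m * A i ≤ κ0 + m * A j := by linarith
      have h1 := mul_le_mul_of_nonneg_left h2 hQ0'.le
      linarith
  let ω : (Fin r → V) → K := LW (M := fun x => ((ν x).1 : ℕ)) A (-m) q k
    (fun x => s (ν x)) p
  obtain ⟨h0, f, hf, hfs⟩ := hs (ν q0)
  have hgen : ∀ c : K, IsTen n X δ γ ι (a (ν q0)) (b (ν q0)) (fun B => c • s (ν q0) B) →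
      IsFlag n X δ γ ι g e (k * ∑ x, b (ν x)) (fun D => c ^ k * ω D) := by
    intro c hc
    have h1 := flagV (M := fun x => ((ν x).1 : ℕ)) hδ (g := g) hm hq (k := k)
      (s := fun x B => (if x = q0 then c else 1) • s (ν x) B) (a := fun x => a (ν x))
      (b := fun x => b (ν x)) (fun x => by
        by_cases hx : x = q0
        · subst hx
          simp only [if_true]
          exact hc
        · simp only [if_neg hx, one_smul]
          exact (hs _).1) (fun D hD hDA x J hne' => by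
        refine hsupp0 (hle _) (haA _) (ha _) (hab _) (hs (ν x)) D hD hDA J fun h => hne' ?_
        rw [smul_apply, h, smul_zero]) hp hm' hQ0 he
    have h2 : LW (M := fun x => ((ν x).1 : ℕ)) A (-m) q k
        (fun x B => (if x = q0 then c else 1) • s (ν x) B) p = fun D => c ^ k * ω D := by
      funext D
      have h3 := LW_smul (M := fun x => ((ν x).1 : ℕ)) A (-m) q k (fun x => s (ν x)) p
        (fun x => if x = q0 then c else 1) D
      rw [Finset.prod_ite_eq' Finset.univ q0 (fun _ => c), if_pos (Finset.mem_univ _)] at h3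
      exact h3
    rw [h2] at h1
    exact h1
  have h4 : ((k : ℤ) * ∑ x, (((ν x).1 : ℕ) : ℤ) + Fintype.card Q * (∑ j, q j : ℕ)) = r * m' := by
    have h3 : ∀ x, Fintype.card (IR (yd r N0 c) q k
        (ν x)) = k * (ν x).1 + ∑ j, q j := by
      intro x
      rw [Fintype.card_sum, Fintype.card_sigma, Fintype.card_sigma]
      simp only [Fintype.card_fin, Finset.sum_const, Finset.card_univ, smul_eq_mul]
    rw [Fintype.card_sigma] at hcard
    simp only [Fintype.card_fin] at hcard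
    rw [Finset.sum_congr rfl fun x _ => h3 x, Finset.sum_add_distrib, Finset.sum_const,
      Finset.card_univ, smul_eq_mul, ← Finset.mul_sum] at hcard
    exact_mod_cast hcard
  have hsum : ∑ j, e j = k * ∑ x, ((((ν x).1 : ℕ) : ℤ) + r * a (ν x)) := by
    simp only [he]
    rw [Finset.sum_sub_distrib, Finset.sum_const, Finset.card_univ, Fintype.card_fin,
      nsmul_eq_mul, ← Finset.mul_sum, Finset.sum_add_distrib, mul_add, ← Finset.mul_sum]
    push_cast at h4 ⊢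
    linarith
  have hk0' : (0 : ℤ) < k := by exact_mod_cast hk0
  have hsum1 : 0 < ∑ j, e j := by
    rw [hsum]
    exact mul_pos hk0' (Finset.sum_pos (fun x _ => ha _) ⟨q0, Finset.mem_univ _⟩)
  have hsum2 : 0 < ∑ j, e j + ρ * (k * ∑ x, b (ν x)) := by
    have h1 : ∑ j, e j + ρ * (k * ∑ x, b (ν x)) =
        k * ∑ x, ((((ν x).1 : ℕ) : ℤ) + r * a (ν x) + ρ * b (ν x)) := by
      have h2 : ∑ x, ((((ν x).1 : ℕ) : ℤ) + r * a (ν x) + ρ * b (ν x)) =
          ∑ x, ((((ν x).1 : ℕ) : ℤ) + r * a (ν x)) + ρ * ∑ x, b (ν x) := by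
        rw [Finset.sum_add_distrib, ← Finset.mul_sum]
      rw [hsum, h2]
      ring
    rw [h1]
    exact mul_pos hk0' (Finset.sum_pos (fun x _ => hab _) ⟨q0, Finset.mem_univ _⟩)
  have hfin : ∃ j, (mem g e (e j) : Submodule K V) ≠ ⊤ ∧
      ¬ KodGeB B' (finrank K (mem g e (e j) : Submodule K V)) n X δ γ ρ
        (ι ∘ₗ (mem g e (e j) : Submodule K V).subtype) 0 := by
    by_contra hcon
    push Not at hcon
    refine hκ (kod_of_mems hn hι hr hr0 hδ hg.1 hsum1 hsum2 (ω := ω) ?_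
      ⟨g, ⟨hg.1, fun j => Submodule.subset_span ⟨j, le_refl (e j), rfl⟩⟩, hne⟩
      (algInd_pow hf hk0) (fun j => hgen _ (hfs j)) (fun j => ?_) ?_ hcon)
    · have h1 := hgen 1 (by simpa only [one_smul] using h0)
      simpa only [one_pow, one_mul] using h1
    · rw [he]
      have h5 := e_bd hr0 hQB (N := fun x => ((ν x).1 : ℕ)) (fun x => hle _)
        (a := fun x => a (ν x)) (fun x => (haA (ν x)).1) h4 (Finset.single_le_sum (f := q) (fun _ _ => Nat.zero_le _)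
          (Finset.mem_univ j))
      exact h5.trans (by exact_mod_cast Ebd_mono hkB hqB)
    · exact (b_bd (k := k) (S := ∑ j, q j) (N0 := N0) (b := fun x => b (ν x)) hQB
        fun x => (haA (ν x)).2).trans
        (by exact_mod_cast Ebd_mono hkB hqB)
  obtain ⟨j, hj, hjK⟩ := hfin
  refine ⟨mem g e (e j), ?_, hj, hjK, ?_⟩
  · intro h
    have h1 : g j ∈ (mem g e (e j) : Submodule K V) :=
      Submodule.subset_span ⟨j, le_refl (e j), rfl⟩
    rw [h, Submodule.mem_bot] at h1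
    exact hg.1.ne_zero j h1
  · -- invariance
    intro σ τ hστ hinv v hv
    have h3 : (mem g e (e j) : Submodule K V) = flag g w (w j) := by
      rw [mem, flag]
      congr 2
      ext l
      exact (heA j l).trans (hAw j l)
    rw [h3] at hv ⊢
    refine flag_stable hr0 hg hmin σ τ hστ ?_ (w j) hv
    rintro d t ⟨hdm, ht⟩
    obtain ⟨t', ht', h⟩ := hinv d t ht
    exact ⟨t', ⟨hdm, ht'⟩, h⟩

/-- **Proper subspaces without sections of bounded degree.** -/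
theorem exists_proper (r N0 A0 B' : ℕ) (hr0 : 0 < r) : ∃ B : ℕ, ∀ (K : Type) [Field K]
    [Algebra ℂ K] (V : Type) [AddCommGroup V] [Module K V] {ι : V →ₗ[K] Derivation ℂ K K}
    [Algebra.EssFiniteType ℂ K] {n : ℕ}
    (hn : Algebra.trdeg ℂ K = n) (hι : Function.Injective ι) [FiniteDimensional K V]
    (hr : finrank K V = r) {X : Set (Place ℂ K)} {δ γ : Place ℂ K → ℝ} {ρ : ℤ}
    (hδ : ∀ P ∈ X, 0 ≤ δ P) {κ : ℕ} (hκ : ¬ KodGeB B r n X δ γ ρ ι κ) {M0 : ℕ} (hM0 : M0 ≤ N0)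
    {a0 b0 : ℤ} (hA0' : |a0| ≤ A0 ∧ |b0| ≤ A0)
    (hN0 : 0 < (M0 : ℤ) + r * a0) (hN0b : 0 < (M0 : ℤ) + r * a0 + ρ * b0)
    {s0 : (Fin r → V) → MultilinearMap K (fun _ : Fin M0 => V) K}
    (hs0 : IsMov n X δ γ ι κ a0 b0 s0) (hs0n : ∃ B, LinearIndependent K B ∧ s0 B ≠ 0) {e0 : Fin r → V}
    (he0 : LinearIndependent K e0),
    ∃ F : Submodule K V, F ≠ ⊥ ∧ F ≠ ⊤ ∧
      ¬ KodGeB B' (finrank K F) n X δ γ ρ (ι ∘ₗ F.subtype) 0 ∧
      ∀ (σ : K ≃+* K) (τ : V ≃+ V), (∀ (c : K) (x : V), τ (c • x) = σ c • τ x) →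
        (∀ d, ∀ t ∈ valsB A0 n X δ γ ρ ι κ e0 d, ∃ t' ∈ valsB A0 n X δ γ ρ ι κ e0 d,
          ∀ x : Fin d → V, t (fun k => τ (x k)) ≠ 0 → t' x ≠ 0) → ∀ v ∈ F, τ v ∈ F := by
  obtain ⟨B1, hB1⟩ := exists_B1 r N0
  obtain ⟨B2, hB2⟩ := exists_B2 r N0
  refine ⟨max (Phi (Ebd B1 1 0 N0 A0) 0) (Phi (Ebd B2 B2 B2 N0 A0) B'), ?_⟩
  intro K _ _ V _ _ ι _ n hn hι _ hr X δ γ ρ hδ κ hκ M0 hM0 a0 b0 hA0' hN0 hN0b s0 hs0 hs0n e0 he0
  let _ : Algebra ℝ K := Algebra.compHom K (algebraMap ℝ ℂ)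
  have _ : IsScalarTower ℝ ℂ K := IsScalarTower.of_algebraMap_eq fun _ => rfl
  exact proper_aux hn hι hr hr0 hδ (fun c T => hB1 c K T)
    (fun w hw => ⟨(hB2 w hw).1, (hB2 w hw).2.1, fun c T => (hB2 w hw).2.2 c K T⟩)
    (fun h => hκ (h.mono (le_max_left _ _))) (fun h => hκ (h.mono (le_max_right _ _)))
    hM0 hA0' hN0 hN0b hs0 hs0n he0

end Pool.Agent.Helper91.EF
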