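import Pool.Agent.Helper91.FE.Bracket
import Pool.Agent.Helper91.FE.Twist

/-!
Brackets: spaces without pure tensors of bounded degree.
-/

set_option autoImplicit false
set_option linter.unusedSectionVars false

namespace Pool.Agent.Helper91.EF

open Module FF Pool.Agent.W602.GT Pool.Agent.W603.LV Pool.Agent.TH143.GT Pool.Agent.Y220.OG
  Pool.Agent.Helper12.BL Pool.Agent.Helper91.HM Pool.Agent.Helper91.HM.Tw

open Pool.Agent.Helper91.FD (VReg VLog VInv dl IsFr dl_le dl_nonneg brk derReg_brk derLog_brk
  arg arg_none arg_self arg_ne vlog_sum span_top exists_adp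
  detM detM_lt detM_change mulM mulM_apply card_split reg_of_gr gr_of_reg adj_reg li_of_fr)

open Pool.Agent.Helper91.FE (IsTen IsMov IsPure IsPureMov Mix MixMov mix_step ten_tw)

variable {K : Type} [Field K] [Algebra ℂ K] {n : ℕ}

/-- there are no movable pure tensors of positive weight and bounded positive degree -/
def NoPureB (N0 A0 n : ℕ) {V : Type} [AddCommGroup V] [Module K V] (X : Set (Place ℂ K))
    (δ γ : Place ℂ K → ℝ) (ρ : ℤ) (ι : V →ₗ[K] Derivation ℂ K K) (κ : ℕ) : Prop :=
  ∀ (M : ℕ) (b : ℤ), M ≤ N0 → |b| ≤ A0 → 0 < M → 0 < (M : ℤ) + ρ * b →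
    ∀ t : MultilinearMap K (fun _ : Fin M => V) K, IsPureMov n X δ γ ι κ b t → t = 0

theorem NoPureB.mono {N0 N1 A0 n : ℕ} {V : Type} [AddCommGroup V] [Module K V]
    {X : Set (Place ℂ K)} {δ γ : Place ℂ K → ℝ} {ρ : ℤ} {ι : V →ₗ[K] Derivation ℂ K K} {κ : ℕ}
    (hN : N0 ≤ N1) (h : NoPureB N1 A0 n X δ γ ρ ι κ) : NoPureB N0 A0 n X δ γ ρ ι κ :=
  fun M b hM hb hM0 hMb t ht => h M b (hM.trans hN) hb hM0 hMb t ht

/-- mixed tensors vanish -/
theorem mix_zero {X : Set (Place ℂ K)} {d c : Place ℂ K → ℝ} (hd : ∀ P ∈ X, 0 ≤ d P) {κ : ℕ}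
    {U W : Submodule K (Derivation ℂ K K)} (hUW : U ≤ W) (hW : W = brk U)
    {w : ℤ} {L : ℕ} (hbase : ∀ (J : Type) [Fintype J] [DecidableEq J], Nonempty J →
      Fintype.card J ≤ L → 0 < (Fintype.card J : ℤ) + w →
      ∀ t : (J → Derivation ℂ K K) → K, MixMov n X d c κ (fun _ => U) t →
        ∀ x, (∀ j, x j ∈ U) → t x = 0) (m : ℕ) :
    ∀ (J : Type) [Fintype J] [DecidableEq J], Nonempty J → Fintype.card J + m ≤ L →
      0 < (Fintype.card J : ℤ) + w → ∀ S : Finset J, Sᶜ.card = m →
      ∀ t : (J → Derivation ℂ K K) → K, MixMov n X d c κ (fun j => if j ∈ S then U else W) t →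
        ∀ x, (∀ j, x j ∈ (if j ∈ S then U else W)) → t x = 0 := by
  induction m with
  | zero =>
    intro J _ _ hJ hL hw S hS t ht x hx
    rw [Finset.card_eq_zero, Finset.compl_eq_empty_iff] at hS
    subst hS
    simp only [Finset.mem_univ, if_true] at ht hx
    exact hbase J hJ hL hw t ht x hx
  | succ m ih =>
    intro J _ _ hJ hL hw S hS t ht
    obtain ⟨j0, hj0⟩ : ∃ j0, j0 ∈ Sᶜ := by
      rw [← Finset.Nonempty, ← Finset.card_pos, hS]
      exact Nat.succ_pos m
    have hj0' : j0 ∉ S := Finset.mem_compl.1 hj0
    obtain ⟨ht0, f, hf, hft⟩ := ht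
    obtain ⟨E, hE⟩ : ∃ E : J → Submodule K (Derivation ℂ K K),
      E = fun j => if j ∈ S then U else W := ⟨_, rfl⟩
    have hEj : ∀ j, E j = if j ∈ S then U else W := fun j => by rw [hE]
    rw [← hE] at ht0
    simp only [← hE] at hft
    have hEj0 : E j0 = W := by rw [hEj, if_neg hj0']
    -- the restriction
    have hres : ∀ j, (if j ∈ insert j0 S then U else W) ≤ E j := by
      intro j
      rw [hEj]
      by_cases h1 : j ∈ S
      · rw [if_pos h1, if_pos (Finset.mem_insert_of_mem h1)]
      · by_cases h2 : j ∈ insert j0 S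
        · rw [if_pos h2, if_neg h1]
          exact hUW
        · rw [if_neg h1, if_neg h2]
    have hcard : (insert j0 S)ᶜ.card = m := by
      have h1 := Finset.card_compl_add_card S
      have h2 := Finset.card_compl_add_card (insert j0 S)
      rw [Finset.card_insert_of_notMem hj0'] at h2
      omega
    have h0 : ∀ x, (∀ j, x j ∈ E j) → x j0 ∈ U → t x = 0 := by
      intro x hx hxU
      refine ih J hJ (by omega) hw (insert j0 S) hcard t ⟨ht0.mono hres, f, hf, fun i => (hft i).mono hres⟩ x
        fun j => ?_
      by_cases h1 : j = j0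
      · subst h1
        rw [if_pos (Finset.mem_insert_self _ _)]
        exact hxU
      · have h2 := hx j
        rw [hEj] at h2
        by_cases h3 : j ∈ S
        · rw [if_pos h3] at h2
          rw [if_pos (Finset.mem_insert_of_mem h3)]
          exact h2
        · rw [if_neg h3] at h2
          rw [if_neg fun h4 => (Finset.mem_insert.1 h4).elim h1 h3]
          exact h2
    -- the brackets
    have hb : ∀ x ∈ U, ∀ y ∈ U, ⁅x, y⁆ ∈ E j0 := by
      intro x hx y hy
      rw [hEj0, hW]
      exact Submodule.mem_sup_right (Submodule.subset_span ⟨x, hx, y, hy, rfl⟩)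
    obtain ⟨S', hS'⟩ : ∃ S' : Finset (Option J), ∀ i, i ∈ S' ↔ (i = none ∨ ∃ j ∈ insert j0 S,
        i = some j) := ⟨insert none ((insert j0 S).map Function.Embedding.some), fun i => by
      rw [Finset.mem_insert, Finset.mem_map]
      constructor
      · rintro (h | ⟨j, hj, rfl⟩)
        · exact Or.inl h
        · exact Or.inr ⟨j, hj, rfl⟩
      · rintro (h | ⟨j, hj, rfl⟩)
        · exact Or.inl h
        · exact Or.inr ⟨j, hj, rfl⟩⟩
    have hS'c : S'ᶜ = ((insert j0 S)ᶜ).map Function.Embedding.some := by
      ext i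
      rw [Finset.mem_compl, hS', Finset.mem_map]
      constructor
      · intro h
        rcases i with _ | j
        · exact absurd (Or.inl rfl) h
        · refine ⟨j, ?_, rfl⟩
          rw [Finset.mem_compl]
          intro hj
          exact h (Or.inr ⟨j, hj, rfl⟩)
      · rintro ⟨j, hj, rfl⟩ h
        rcases h with h | ⟨j', hj', h⟩
        · exact Option.some_ne_none _ h
        · rw [Finset.mem_compl] at hj
          apply hj
          rwa [Option.some_injective _ h]
    have hcard' : S'ᶜ.card = m := by rw [hS'c, Finset.card_map, hcard]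
    have hmemS : ∀ j, (some j ∈ S') ↔ j ∈ insert j0 S := by
      intro j
      rw [hS']
      constructor
      · rintro (h | ⟨j', hj', h⟩)
        · exact absurd h (Option.some_ne_none _)
        · rwa [Option.some_injective _ h]
      · intro h
        exact Or.inr ⟨j, h, rfl⟩
    have hnone : (none : Option J) ∈ S' := (hS' _).2 (Or.inl rfl)
    have hstep : ∀ u : (J → Derivation ℂ K K) → K, Mix n X d c E u →
        (∀ x, (∀ j, x j ∈ E j) → x j0 ∈ U → u x = 0) →
          Mix n X d c (fun i => if i ∈ S' then U else W) (fun x => u (arg j0 x)) := by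
      intro u hu hu0
      refine mix_step hd hu (U := U) (by rw [hEj0]; exact hUW) hb hu0 (if_pos hnone)
        (if_pos ((hmemS j0).2 (Finset.mem_insert_self _ _))) fun j hj => ?_
      rw [hEj]
      by_cases h1 : j ∈ S
      · rw [if_pos h1, if_pos ((hmemS j).2 (Finset.mem_insert_of_mem h1))]
      · rw [if_neg h1, if_neg fun h2 => (Finset.mem_insert.1 ((hmemS j).1 h2)).elim hj h1]
    have hmov : MixMov n X d c κ (fun i => if i ∈ S' then U else W) (fun x => t (arg j0 x)) :=
      ⟨hstep t ht0 h0, f, hf, fun i => hstep (fun x => f i * t x) (hft i) fun x hx hxU => by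
        rw [h0 x hx hxU, mul_zero]⟩
    have hz := ih (Option J) ⟨none⟩ (by
      rw [Fintype.card_option]
      omega) (by
      rw [Fintype.card_option]
      push_cast
      linarith) S' hcard' _ hmov
    -- the end
    intro x hx
    have hx' : ∀ j, x j ∈ E j := fun j => by rw [hEj]; exact hx j
    have hupd : ∀ w ∈ W, ∀ i, Function.update x j0 w i ∈ E i := by
      intro w hw i
      by_cases hi : i = j0
      · subst hi
        rw [Function.update_self, hEj0]
        exact hw
      · rw [Function.update_of_ne hi]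
        exact hx' i
    have hlin : ∀ w ∈ W, ∀ w' ∈ W, ∀ c : K, t (Function.update x j0 (c • w + w')) =
        c * t (Function.update x j0 w) + t (Function.update x j0 w') := fun w hw w' hw' c =>
      ht0.1 x hx' j0 w (by rw [hEj0]; exact hw) w' (by rw [hEj0]; exact hw') c
    let Z : Submodule K (Derivation ℂ K K) :=
      { carrier := {w | w ∈ W ∧ t (Function.update x j0 w) = 0}
        add_mem' := by
          rintro w w' ⟨h1, h2⟩ ⟨h3, h4⟩
          refine ⟨Submodule.add_mem _ h1 h3, ?_⟩
          have h5 := hlin w h1 w' h3 1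
          rw [one_smul, h2, h4, mul_zero, add_zero] at h5
          exact h5
        zero_mem' := ⟨Submodule.zero_mem _, ht0.zero hx' j0⟩
        smul_mem' := by
          rintro c w ⟨h1, h2⟩
          refine ⟨Submodule.smul_mem _ _ h1, ?_⟩
          have h5 := hlin w h1 0 (Submodule.zero_mem _) c
          rw [add_zero, h2, mul_zero, zero_add, ht0.zero hx' j0] at h5
          exact h5 }
    have hZ : W ≤ Z := by
      rw [hW]
      refine sup_le (fun u hu => ⟨hUW hu, ?_⟩) (Submodule.span_le.2 ?_)
      · refine h0 _ (hupd u (hUW hu)) ?_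
        rw [Function.update_self]
        exact hu
      · rintro _ ⟨y, hy, z, hz', rfl⟩
        have hyz : ⁅y, z⁆ ∈ W := by
          have := hb y hy z hz'
          rwa [hEj0] at this
        refine ⟨hyz, ?_⟩
        obtain ⟨x', hx'1⟩ : ∃ x' : Option J → Derivation ℂ K K,
            x' = fun i => Option.elim i y (fun j => if j = j0 then z else x j) := ⟨_, rfl⟩
        have h1 : arg j0 x' = Function.update x j0 ⁅y, z⁆ := by
          funext j
          by_cases h : j = j0
          · subst h
            rw [arg, Function.update_self, Function.update_self, hx'1]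
            simp
          · rw [arg, Function.update_of_ne h, Function.update_of_ne h, hx'1]
            simp [h]
        rw [← h1]
        refine hz x' fun i => ?_
        rcases i with _ | j
        · rw [if_pos hnone, hx'1]
          exact hy
        · rw [hx'1]
          change (if j = j0 then z else x j) ∈ _
          by_cases h : j = j0
          · subst h
            rw [if_pos rfl, if_pos ((hmemS j).2 (Finset.mem_insert_self _ _))]
            exact hz'
          · rw [if_neg h]
            have h2 := hx j
            by_cases h3 : j ∈ S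
            · rw [if_pos h3] at h2
              rw [if_pos ((hmemS j).2 (Finset.mem_insert_of_mem h3))]
              exact h2
            · rw [if_neg h3] at h2
              rw [if_neg fun h4 => (Finset.mem_insert.1 ((hmemS j).1 h4)).elim h h3]
              exact h2
    have h5 : x j0 ∈ W := by
      have := hx' j0
      rwa [hEj0] at this
    have h6 := (hZ h5).2
    rwa [Function.update_eq_self] at h6

/-- If `U` has no pure tensors then `U + [U, U]` has none. -/
theorem noPure_brk {X : Set (Place ℂ K)} {δ γ : Place ℂ K → ℝ} (hδ : ∀ P ∈ X, 0 ≤ δ P) {ρ : ℤ}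
    {κ N0 A0 : ℕ} {U : Submodule K (Derivation ℂ K K)}
    (h : NoPureB (2 * N0) A0 n X δ γ ρ U.subtype κ) :
    NoPureB N0 A0 n X δ γ ρ (brk U).subtype κ := by
  classical
  intro M b hMN hbA hM hMb t ht
  have hUW : U ≤ brk U := le_sup_left
  have hd : ∀ P ∈ X, 0 ≤ dl δ (brk U).subtype P := fun P hP => dl_nonneg (hδ P hP)
  have hdd : ∀ P, ¬ VInv U.subtype P → dl δ (brk U).subtype P = dl δ U.subtype P := by
    intro P hP
    rw [dl, dl, if_neg hP, if_neg]
    intro h1
    exact hP fun v hv => h1 ⟨v.1, hUW v.2⟩ hv
  have hbase : ∀ (J : Type) [Fintype J] [DecidableEq J], Nonempty J → Fintype.card J ≤ 2 * N0 →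
      0 < (Fintype.card J : ℤ) + ρ * b → ∀ t : (J → Derivation ℂ K K) → K,
        MixMov n X (dl δ (brk U).subtype) (fun P => b * γ P) κ (fun _ => U) t →
          ∀ x, (∀ j, x j ∈ U) → t x = 0 := by
    intro J _ _ hJ hJL hw t ht x hx
    obtain ⟨M, hM⟩ : ∃ M, M = Fintype.card J := ⟨_, rfl⟩
    have hM0 : 0 < M := hM ▸ Fintype.card_pos
    obtain ⟨e⟩ : Nonempty (J ≃ Fin M) := ⟨(Fintype.equivFin J).trans (finCongr hM.symm)⟩
    have hmk : ∀ u : (J → Derivation ℂ K K) → K,
        Mix n X (dl δ (brk U).subtype) (fun P => b * γ P) (fun _ => U) u →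
        ∃ T : MultilinearMap K (fun _ : Fin M => U) K, (∀ y : Fin M → U,
          T y = u (fun j => (y (e j) : Derivation ℂ K K))) ∧ IsPure n X δ γ U.subtype b T := by
      intro u hu
      have hupd : ∀ (inst : DecidableEq (Fin M)) (y : Fin M → U) (k : Fin M) (v : U),
          (fun j => ((@Function.update _ _ inst y k v (e j) : U) : Derivation ℂ K K)) =
            Function.update (fun j => (y (e j) : Derivation ℂ K K)) (e.symm k)
              (v : Derivation ℂ K K) := by
        intro inst y k v
        funext j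
        by_cases hj : j = e.symm k
        · subst hj
          rw [Function.update_self, Equiv.apply_symm_apply, Function.update_self]
        · rw [Function.update_of_ne hj, Function.update_of_ne]
          intro h'
          apply hj
          rw [← h', Equiv.symm_apply_apply]
      refine ⟨{ toFun := fun y => u (fun j => (y (e j) : Derivation ℂ K K))
                map_update_add' := ?_
                map_update_smul' := ?_ }, fun y => rfl, fun P hP hdiv y hy => ?_⟩
      · intro inst y k v w
        rw [hupd, hupd, hupd]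
        have h1 := hu.1 (fun j => (y (e j) : Derivation ℂ K K)) (fun j => (y (e j)).2)
          (e.symm k) v v.2 w w.2 1
        rw [one_smul, one_mul] at h1
        exact h1
      · intro inst y k c v
        rw [hupd, hupd]
        have h1 := hu.1 (fun j => (y (e j) : Derivation ℂ K K)) (fun j => (y (e j)).2)
          (e.symm k) v v.2 0 (Submodule.zero_mem _) c
        rw [add_zero, Mix.zero hu (fun j => (y (e j)).2), add_zero] at h1
        exact h1
      · have h1 := hu.2 P hP hdiv (fun j => (y (e j) : Derivation ℂ K K))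
          (fun j => (y (e j)).2) (fun j => hy (e j))
        change Gr P _ (u (fun j => (y (e j) : Derivation ℂ K K)))
        have h2 : Nat.card {k : Fin M // ¬ VLog U.subtype P (y k)} =
            Nat.card {j : J // ¬ DerLog P (y (e j) : Derivation ℂ K K)} := by
          refine Nat.card_congr ((Equiv.subtypeEquiv e fun j => ?_).symm)
          exact Iff.rfl
        by_cases hP' : VInv U.subtype P
        · have h3 : Nat.card {j : J // ¬ DerLog P (y (e j) : Derivation ℂ K K)} = 0 := by
            rw [Nat.card_eq_zero]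
            exact Or.inl ⟨fun j => j.2 (hP' _ (hy _))⟩
          rw [h3, Nat.cast_zero, zero_mul] at h1
          rw [h2, h3, Nat.cast_zero, zero_mul]
          exact h1
        · rw [hdd P hP'] at h1
          rw [h2]
          exact h1
    obtain ⟨ht0, f, hf, hft⟩ := ht
    obtain ⟨T, hT, hTp⟩ := hmk t ht0
    have h1 := h M b (hM ▸ hJL) hbA hM0 (by rw [hM]; exact hw) T ⟨hTp, f, hf, fun i => ?_⟩
    · have h2 := hT fun k => ⟨x (e.symm k), hx _⟩
      rw [h1] at h2
      simp only [Equiv.symm_apply_apply] at h2
      exact h2.symm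
    · obtain ⟨T', hT', hTp'⟩ := hmk _ (hft i)
      have h2 : f i • T = T' := by
        ext y
        rw [smul_apply, hT, hT', smul_eq_mul]
      rw [h2]
      exact hTp'
  obtain ⟨T, hT⟩ : ∃ T : (Fin M → Derivation ℂ K K) → K, ∀ (y : Fin M → Derivation ℂ K K)
      (hy : ∀ j, y j ∈ brk U), T y = t fun j => ⟨y j, hy j⟩ :=
    ⟨fun y => if hy : ∀ j, y j ∈ brk U then t fun j => ⟨y j, hy j⟩ else 0, fun y hy => dif_pos hy⟩
  have hconv : ∀ c : K, IsPure n X δ γ (brk U).subtype b (c • t) →
      Mix n X (dl δ (brk U).subtype) (fun P => b * γ P) (fun _ : Fin M => brk U)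
        (fun y => c * T y) := by
    intro c hc
    refine ⟨fun x hx j y hy z hz a => ?_, fun P hP hdiv x hx hr => ?_⟩
    · have hupd : ∀ v ∈ brk U, ∀ i, Function.update x j v i ∈ brk U := by
        intro v hv i
        by_cases hi : i = j
        · subst hi
          rw [Function.update_self]
          exact hv
        · rw [Function.update_of_ne hi]
          exact hx i
      have hT' : ∀ v (hv : v ∈ brk U), T (Function.update x j v) =
          t (Function.update (fun i => (⟨x i, hx i⟩ : brk U)) j ⟨v, hv⟩) := by
        intro v hv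
        rw [hT _ (hupd v hv)]
        congr 1
        funext i
        apply Subtype.ext
        change Function.update x j v i =
          ((Function.update (fun i => (⟨x i, hx i⟩ : brk U)) j ⟨v, hv⟩ i : brk U) :
            Derivation ℂ K K)
        by_cases hi : i = j
        · subst hi
          rw [Function.update_self, Function.update_self]
        · rw [Function.update_of_ne hi, Function.update_of_ne hi]
      change c * T _ = a * (c * T _) + c * T _
      rw [hT' _ (Submodule.add_mem _ (Submodule.smul_mem _ _ hy) hz), hT' _ hy, hT' _ hz]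
      have h1 : (⟨a • y + z, Submodule.add_mem _ (Submodule.smul_mem _ _ hy) hz⟩ : brk U) =
          a • ⟨y, hy⟩ + ⟨z, hz⟩ := rfl
      rw [h1, t.map_update_add, t.map_update_smul, smul_eq_mul]
      ring
    · change Gr P _ (c * T x)
      rw [hT x hx]
      exact hc P hP hdiv (fun j => ⟨x j, hx j⟩) hr
  obtain ⟨ht0, f, hf, hft⟩ := ht
  have hmix : MixMov n X (dl δ (brk U).subtype) (fun P => b * γ P) κ
      (fun j : Fin M => if j ∈ (∅ : Finset (Fin M)) then U else brk U) T := by
    simp only [Finset.notMem_empty, if_false]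
    refine ⟨?_, f, hf, fun i => hconv _ (hft i)⟩
    have h1 := hconv 1 (by rw [one_smul]; exact ht0)
    simpa only [one_mul] using h1
  ext y
  have h1 := mix_zero hd hUW rfl hbase M (Fin M) ⟨⟨0, hM⟩⟩ (by
    rw [Fintype.card_fin]
    omega) (by rwa [Fintype.card_fin]) ∅ (by simp) T hmix
    (fun j => (y j : Derivation ℂ K K)) (fun j => by
      rw [if_neg (Finset.notMem_empty j)]
      exact (y j).2)
  rw [hT _ fun j => (y j).2] at h1
  exact h1


/-- If there are no pure tensors then there are no tensors with values in `a (K + Δ) + b D`, `a ≥ 0`,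
for coefficients in `[0, 1]`. -/
theorem noTwisted {V : Type} [AddCommGroup V] [Module K V] {r : ℕ}
    {ι : V →ₗ[K] Derivation ℂ K K} [Algebra.EssFiniteType ℂ K] (hn : Algebra.trdeg ℂ K = n)
    (hι : Function.Injective ι) [FiniteDimensional K V] (hr : finrank K V = r) (hr0 : 0 < r)
    {X : Set (Place ℂ K)} {δ γ : Place ℂ K → ℝ} (hδ : ∀ P ∈ X, 0 ≤ δ P) (hδ1 : ∀ P ∈ X, δ P ≤ 1)
    {ρ : ℤ} {κ L A0 : ℕ} (h : NoPureB L A0 n X δ γ ρ ι κ) {N a : ℕ} {b : ℤ} (hNa : 0 < N + a)
    (hNL : N + r * a ≤ L) (hbA : |b| ≤ A0)
    (hNb : 0 < (N : ℤ) + r * a + ρ * b)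
    {s : (Fin r → V) → MultilinearMap K (fun _ : Fin N => V) K}
    (hs : IsMov n X δ γ ι κ (a : ℤ) b s) {B : Fin r → V} (hB : LinearIndependent K B) : s B = 0 := by
  classical
  induction a generalizing N with
  | zero =>
    have key : ∀ s' : (Fin r → V) → MultilinearMap K (fun _ : Fin N => V) K,
        IsTen n X δ γ ι ((0 : ℕ) : ℤ) b s' → IsPure n X δ γ ι b (s' B) := by
      intro s' hs' P hP hdiv D hD
      obtain ⟨E, hE, hEf, -⟩ := exists_adp hn hι hr hB (fun _ => 0) hdiv
      obtain ⟨A, hA⟩ := exists_lt (D := E) (span_top hr hB)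
      have hA0 : A.det ≠ 0 := by
        have h1 := hE.1
        rw [hA] at h1
        exact (lt_li.1 h1).2
      have h2 := hs'.1 A B hB hA0
      rw [← hA, Nat.cast_zero, zpow_zero, one_smul] at h2
      have h3 := hs'.2 P hP hdiv E hEf D hD
      rw [h2] at h3
      refine Gr.mono (le_of_eq ?_) h3
      simp
    obtain ⟨h1, f, hf, h2⟩ := hs
    exact h N b (by simpa using hNL) hbA (by omega) (by simpa using hNb) (s B) ⟨key s h1, f, hf, fun j => key _ (h2 j)⟩
  | succ a ih =>
    obtain ⟨h1, f, hf, h2⟩ := hs
    rw [Nat.cast_succ] at h1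
    have h3 : IsMov n X δ γ ι κ (a : ℤ) b (fun B => mulM (s B) (detM hr B)) := by
      refine ⟨ten_tw hn hι hr hδ hδ1 hB h1, f, hf, fun j => ?_⟩
      have h4 := h2 j
      rw [Nat.cast_succ] at h4
      have h5 := ten_tw hn hι hr hδ hδ1 hB h4
      have h6 : (fun B => f j • mulM (s B) (detM hr B)) =
          fun B => mulM (f j • s B) (detM hr B) := by
        funext B'
        ext v
        rw [smul_apply, mulM_apply, mulM_apply, smul_apply,
          smul_eq_mul, smul_eq_mul, mul_assoc]
      rw [h6]
      exact h5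
    have h4 := ih (N := N + r) (by omega) (by
      rw [mul_add, mul_one] at hNL
      omega) (by
      push_cast at hNb ⊢
      linarith) h3
    ext x
    have h5 : mulM (s B) (detM hr B) (Fin.append x B) = 0 := by
      rw [h4]
      rfl
    rw [mulM_apply] at h5
    have h6 : (fun j => Fin.append x B (Fin.castAdd r j)) = x := by
      funext j
      exact Fin.append_left _ _ _
    have h7 : (fun i => Fin.append x B (Fin.natAdd N i)) = lt (1 : Matrix (Fin r) (Fin r) K) B := by
      funext i
      rw [lt_one]
      exact Fin.append_right _ _ _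
    rw [h6, h7, detM_lt hr hB, Matrix.det_one, mul_one] at h5
    rw [h5]
    rfl


end Pool.Agent.Helper91.EF
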