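import Pool.Agent.Helper91.FE.FolDef

/-!
The rational maps which are given by the sections of multiples of the log canonical divisor.
-/

set_option autoImplicit false

namespace Pool.Agent.Helper91.Fol2

open Module FF Pool.Agent.W602.GT

variable {K : Type} [Field K] [Algebra ℂ K]

/-- The rational map which is given by the sections of `m (K_X + Δ)` has an image of dimension at least
`κ`: there are sections `ω 0, ..., ω κ` of `m (K_X + Δ)` such that `ω 0 ≠ 0` and the `κ` quotients
`ω i / ω 0` are algebraically independent.  For `κ = 0` this says that `m (K_X + Δ)` has a nonzero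
section. -/
def ImageGe (n : ℕ) (X : Set (Place ℂ K)) (δ : Place ℂ K → ℝ) (m κ : ℕ) : Prop :=
  ∃ ω : Fin (κ + 1) → (Fin n → Derivation ℂ K K) → K,
    (∀ j, Helper91.HM.Tw.IsSection n X δ m (ω j)) ∧
      ∃ D, ω 0 D ≠ 0 ∧ AlgebraicIndependent ℂ (fun i : Fin κ => ω i.succ D / ω 0 D)

/-- The integer `c` has absolute value at most `N`. -/
def Small (N : ℕ) (c : ℤ) : Prop := |c| ≤ N

end Pool.Agent.Helper91.Fol2
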