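import Pool.Agent.Helper91.FE.Ind
import Pool.Agent.Helper91.EF.Main
import Pool.Agent.Helper91.EF.Bracket

/-!
Distributions and foliations without twisted tensors of bounded degree.
-/

set_option autoImplicit false
set_option linter.unusedSectionVars false
set_option linter.unusedVariables false

namespace Pool.Agent.Helper91.EF

open Module FF Pool.Agent.W602.GT Pool.Agent.W603.LV Pool.Agent.TH143.GT Pool.Agent.Y220.OG
  Pool.Agent.Helper12.BL Pool.Agent.Helper91.HM Pool.Agent.Helper91.HM.Tw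

open Pool.Agent.Helper91.FD (VReg VLog VInv dl IsFr dl_le dl_nonneg vlog_sum span_top exists_adp
  InvU exists_T finDim brk clo le_clo clo_le clo_inv brk_le invU_clo T_sum T_li pullM pullM_apply)

open Pool.Agent.Helper91.FE (IsTen IsMov IsPure IsPureMov isMov_pull isMov_zero LinInv)

section pull

variable {K : Type} [Field K] [Algebra ℂ K] {V : Type} [AddCommGroup V] [Module K V] {n r : ℕ}
  {ι : V →ₗ[K] Derivation ℂ K K} {φ : K ≃+* K} {τ : ℂ ≃+* ℂ}
  (h : ∀ c, φ (algebraMap ℂ K c) = algebraMap ℂ K (τ c)) {T : V ≃+ V}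
  (hT : ∀ (c : K) (x : V), T (c • x) = φ c • T x) (hc : ∀ v, ι (T v) = cj h (ι v))

include h hT hc in
theorem vals_pull [FiniteDimensional K V] (hr : finrank K V = r) {X : Set (Place ℂ K)}
    {δ γ : Place ℂ K → ℝ}
    (hX : ∀ P ∈ X, ∀ P' : Place ℂ K, (∀ f, P'.ord (φ f) = P.ord f) → P' ∈ X ∧ δ P' = δ P)
    {g : K} (hg : g ≠ 0) (hγ : ∀ P ∈ X, Divisorial n P → γ (mapPlace h P) = γ P + P.ord g)
    {ρ : ℤ} {κ A0 : ℕ} {e0 : Fin r → V} (he0 : LinearIndependent K e0) :
    ∀ d, ∀ t ∈ valsB A0 n X δ γ ρ ι κ e0 d, ∃ t' ∈ valsB A0 n X δ γ ρ ι κ e0 d,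
          ∀ x : Fin d → V, t (fun k => T (x k)) ≠ 0 → t' x ≠ 0 := by
  rintro d t ⟨a', b', s', hA, hpos, hpos', hs', rfl⟩
  have he0s := span_top hr he0
  refine ⟨g ^ b' • pullM hT (s' fun i => T (e0 i)), ⟨a', b', fun B => g ^ b' • pullM hT
    (s' fun i => T (B i)), hA, hpos, hpos', isMov_pull h hT hc hX hg hγ hs', rfl⟩,
      fun x hne => ?_⟩
  obtain ⟨C, hC⟩ := exists_lt (D := fun i => T (e0 i)) he0s
  have h3 := T_li hT he0
  rw [hC] at h3
  have h4 := (lt_li.1 h3).2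
  rw [smul_apply, pullM_apply, smul_eq_mul]
  have h5 : s' (fun i => T (e0 i)) = C.det ^ a' • s' e0 := by
    rw [hC]
    exact hs'.1.1 C e0 he0 h4
  rw [h5, smul_apply, smul_eq_mul]
  exact mul_ne_zero (zpow_ne_zero _ hg)
    ((map_ne_zero φ.symm).2 (mul_ne_zero (zpow_ne_zero _ h4) hne))

end pull

section transport

variable {K : Type} [Field K] [Algebra ℂ K] {V V' : Type} [AddCommGroup V] [Module K V]
  [AddCommGroup V'] [Module K V'] {n r : ℕ}
  {ι : V →ₗ[K] Derivation ℂ K K} {ι' : V' →ₗ[K] Derivation ℂ K K}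

theorem kodGe_transport (e : V ≃ₗ[K] V') (he : ∀ v, ι' (e v) = ι v) {X : Set (Place ℂ K)}
    {δ γ : Place ℂ K → ℝ} {ρ : ℤ} {κ B : ℕ} (h : KodGeB B r n X δ γ ρ ι' κ) :
    KodGeB B r n X δ γ ρ ι κ := by
  have hreg : ∀ P v, VReg ι' P (e v) ↔ VReg ι P v := fun P v => by rw [VReg, VReg, he]
  have hlog : ∀ P v, VLog ι' P (e v) ↔ VLog ι P v := fun P v => by rw [VLog, VLog, he]
  have hinv : ∀ P, VInv ι' P ↔ VInv ι P := fun P => by
    constructor
    · intro hP v hv
      exact (hlog P v).1 (hP _ ((hreg P v).2 hv))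
    · intro hP v hv
      obtain ⟨u, rfl⟩ := e.surjective v
      exact (hlog P u).2 (hP _ ((hreg P u).1 hv))
  have hdl : ∀ P, dl δ ι' P = dl δ ι P := fun P => by
    by_cases hP : VInv ι P
    · rw [dl, dl, if_pos hP, if_pos ((hinv P).2 hP)]
    · rw [dl, dl, if_neg hP, if_neg fun h' => hP ((hinv P).1 h')]
  obtain ⟨m, b, hm, hmB, hbB, hmb, ω, hω, D, hD, halg⟩ := h
  refine ⟨m, b, hm, hmB, hbB, hmb, fun j B => ω j (fun i => e (B i)), fun j => ⟨fun A D => ?_,
    fun P hP hdiv D hD => ?_⟩, fun i => e.symm (D i), ?_, ?_⟩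
  · have h1 : (fun i => e (lt A D i)) = lt A (fun i => e (D i)) := by
      funext i
      rw [lt, map_sum]
      exact Finset.sum_congr rfl fun l _ => map_smul _ _ _
    change ω j (fun i => e (lt A D i)) = A.det ^ m * ω j (fun i => e (D i))
    rw [h1, (hω j).1]
  · rw [← hdl]
    exact (hω j).2 P hP hdiv _ fun i => (hreg P _).2 (hD i)
  · simp only [LinearEquiv.apply_symm_apply]
    exact hD
  · simp only [LinearEquiv.apply_symm_apply]
    exact halg

end transport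

section main

variable {K : Type} [Field K] [Algebra ℂ K] {n : ℕ}

/-- there are no tensors of positive weight and bounded degree -/
def NoTenB (N0 A0 n : ℕ) (X : Set (Place ℂ K)) (δ γ : Place ℂ K → ℝ) (ρ : ℤ)
    (U : Submodule K (Derivation ℂ K K)) (κ : ℕ) : Prop :=
  ∀ (N : ℕ) (a b : ℤ), N ≤ N0 → |a| ≤ A0 → |b| ≤ A0 → 0 < (N : ℤ) + finrank K U * a →
    0 < (N : ℤ) + finrank K U * a + ρ * b →
    ∀ s : (Fin (finrank K U) → U) → MultilinearMap K (fun _ : Fin N => U) K,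
      IsMov n X δ γ U.subtype κ a b s → ∀ B, LinearIndependent K B → s B = 0

end main

theorem exists_noTen (N0 A0 : ℕ) (r : ℕ) : ∃ B0 : ℕ, ∀ (K : Type) [Field K] [Algebra ℂ K]
    [Algebra.EssFiniteType ℂ K] [FiniteDimensional K (Derivation ℂ K K)] {n : ℕ}
    (hn : Algebra.trdeg ℂ K = n) {X : Set (Place ℂ K)}
    {δ γ : Place ℂ K → ℝ} (hδ : ∀ P ∈ X, 0 ≤ δ P) (hγ : LinInv n X δ γ) {ρ : ℤ}
    (U : Submodule K (Derivation ℂ K K)), finrank K U = r → 0 < r → InvU X δ U → ∀ κ,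
      ¬ KodGeB B0 (finrank K U) n X δ γ ρ U.subtype κ →
      ∃ F : Submodule K (Derivation ℂ K K), F ≤ U ∧
        F ≠ ⊥ ∧ InvU X δ F ∧ NoTenB N0 A0 n X δ γ ρ F κ ∧
          (F ≠ U → NoTenB N0 A0 n X δ γ ρ F 0) := by
  induction r using Nat.strong_induction_on with
  | _ r ih =>
    choose! f hf using ih
    rcases Nat.eq_zero_or_pos r with hr0 | hr0
    · refine ⟨0, fun K _ _ _ _ n hn X δ γ hδ hγ ρ U hU h0 => ?_⟩
      omega
    obtain ⟨B0, hB0⟩ := exists_proper r N0 A0 ((Finset.range r).sup f) hr0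
    refine ⟨B0, fun K _ _ _ _ n hn X δ γ hδ hγ ρ U hr _ hU κ hκ => ?_⟩
    by_cases hno : NoTenB N0 A0 n X δ γ ρ U κ
    · refine ⟨U, le_refl U, ?_, hU, hno, fun h => absurd rfl h⟩
      rintro rfl
      rw [finrank_bot] at hr
      omega
    · rw [NoTenB] at hno
      push Not at hno
      obtain ⟨N, a, b, hN, haA, hbA, hNa, hNb, s, hs, B, hB, hne⟩ := hno
      subst hr
      obtain ⟨F', hF0, hF1, hFK, hFinv⟩ := hB0 K U hn (Submodule.subtype_injective U) rfl
        hδ hκ hN ⟨haA, hbA⟩ hNa hNb hs ⟨B, hB, hne⟩ hB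
      obtain ⟨U', hU'⟩ : ∃ U', U' = F'.map U.subtype := ⟨_, rfl⟩
      have e : F' ≃ₗ[K] U' := (Submodule.equivMapOfInjective U.subtype
        (Submodule.subtype_injective U) F').trans (LinearEquiv.ofEq _ _ hU'.symm)
      have hfr : finrank K U' = finrank K F' := (LinearEquiv.finrank_eq e).symm
      have hlt : finrank K U' < finrank K U := by
        rw [hfr]
        exact Submodule.finrank_lt hF1
      have hpos : 0 < finrank K U' := by
        rw [hfr]
        have hnt : Nontrivial F' := Submodule.nontrivial_iff_ne_bot.2 hF0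
        exact Module.finrank_pos (R := K) (M := F')
      have hInv' : InvU X δ U' := by
        rintro φ hφ D hD D' hD'
        obtain ⟨⟨τ, hτ⟩, hX⟩ := id hφ
        obtain ⟨T, hT, hTc⟩ := exists_T hU hφ hτ
        obtain ⟨g, hg, hgγ⟩ := hγ φ τ hτ hφ
        rw [hU'] at hD ⊢
        obtain ⟨v, hv, rfl⟩ := hD
        have h1 : D' = cj hτ (U.subtype v) := by
          ext y
          rw [cj_apply, ← hD', RingEquiv.apply_symm_apply]
        rw [h1, ← hTc]
        refine ⟨T v, ?_, rfl⟩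
        exact hFinv φ T hT (vals_pull hτ hT hTc rfl hX hg hgγ hB) v hv
      have hK' : ¬ KodGeB (f (finrank K U')) (finrank K U') n X δ γ ρ U'.subtype 0 := by
        intro hcon
        apply hFK
        have h1 : f (finrank K U') ≤ (Finset.range (finrank K U)).sup f :=
          Finset.le_sup (f := f) (Finset.mem_range.2 hlt)
        replace hcon := hcon.mono h1
        rw [hfr] at hcon
        refine kodGe_transport ((Submodule.equivMapOfInjective U.subtype
          (Submodule.subtype_injective U) F').trans (LinearEquiv.ofEq _ _ hU'.symm)) ?_ hcon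
        intro v
        rfl
      obtain ⟨F, h1, h2, h3, h4, -⟩ := hf _ hlt K hn hδ hγ U' rfl hpos hInv' 0 hK'
      have h5 : U' ≤ U := by
        rw [hU']
        exact Submodule.map_subtype_le U F'
      exact ⟨F, h1.trans h5, h2, h3, fun N a b hN haA hbA hNa hNb s hs B hB =>
        h4 N a b hN haA hbA hNa hNb s (isMov_zero hs) B hB, fun _ => h4⟩

section main

variable {K : Type} [Field K] [Algebra ℂ K] {n : ℕ}

theorem noPure_clo (hn : Algebra.trdeg ℂ K = n) {X : Set (Place ℂ K)} {δ γ : Place ℂ K → ℝ}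
    (hδ : ∀ P ∈ X, 0 ≤ δ P) {ρ : ℤ} {κ N0 A0 : ℕ} (d : ℕ) :
    ∀ U : Submodule K (Derivation ℂ K K), n - finrank K U ≤ d →
      NoPureB (2 ^ d * N0) A0 n X δ γ ρ U.subtype κ →
      NoPureB N0 A0 n X δ γ ρ (clo U).subtype κ := by
  obtain ⟨hfin, hfr⟩ := finDim hn
  induction d with
  | zero =>
    intro U hd hU
    have h0 : finrank K U = n := by
      have := hfr ▸ Submodule.finrank_le U
      omega
    have h1 : clo U = U := by
      have h2 : U = ⊤ := Submodule.eq_top_of_finrank_eq (h0.trans hfr.symm)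
      rw [h2]
      exact top_le_iff.1 (le_clo ⊤)
    rw [h1]
    simpa using hU
  | succ d ih =>
    intro U hd hU
    by_cases hb : brk U = U
    · have h1 : clo U = U := le_antisymm (clo_le (le_refl U) fun x hx y hy => by
        rw [← hb]
        exact Submodule.mem_sup_right (Submodule.subset_span ⟨x, hx, y, hy, rfl⟩)) (le_clo U)
      rw [h1]
      exact hU.mono (Nat.le_mul_of_pos_left _ (by positivity))
    · have h1 : U < brk U := lt_of_le_of_ne le_sup_left (Ne.symm hb)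
      have h2 : finrank K U < finrank K (brk U) := Submodule.finrank_lt_finrank_of_lt h1
      have h3 : finrank K (brk U) ≤ n := hfr ▸ Submodule.finrank_le _
      have h4 := ih (brk U) (by omega) (noPure_brk hδ (hU.mono (le_of_eq (by ring))))
      have h5 : clo (brk U) = clo U := le_antisymm
        (clo_le (brk_le (le_clo U) clo_inv) clo_inv)
        (clo_le (h1.le.trans (le_clo _)) clo_inv)
      rw [← h5]
      exact h4

theorem noPure_of_noTen [FiniteDimensional K (Derivation ℂ K K)] {X : Set (Place ℂ K)}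
    {δ γ : Place ℂ K → ℝ} {ρ : ℤ} {κ N0 A0 : ℕ} {U : Submodule K (Derivation ℂ K K)}
    (h : NoTenB N0 A0 n X δ γ ρ U κ) : NoPureB N0 A0 n X δ γ ρ U.subtype κ := by
  have key : ∀ {M : ℕ} {b : ℤ} {t : MultilinearMap K (fun _ : Fin M => U) K},
      IsPure n X δ γ U.subtype b t → IsTen n X δ γ U.subtype 0 b
        (fun _ : Fin (finrank K U) → U => t) := by
    intro M b t ht
    refine ⟨fun A B _ _ => by rw [zpow_zero, one_smul], fun P hP hdiv B _ D hD => ?_⟩
    have h1 := ht P hP hdiv D hD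
    rw [Int.cast_zero, add_zero]
    exact h1
  intro M b hMN hbA hM hMb t ht
  refine h M 0 b hMN (by simp) hbA (by simpa using hM) (by simpa using hMb) (fun _ => t)
    ⟨key ht.1, ?_⟩ _ (Module.finBasis K U).linearIndependent
  obtain ⟨f, hf, hfs⟩ := ht.2
  exact ⟨f, hf, fun j => key (hfs j)⟩

end main

/-- The main theorem. -/
theorem fol_main (N0 n : ℕ) (hn0 : 0 < n) : ∃ B0 : ℕ, ∀ (K : Type) [Field K] [Algebra ℂ K]
    [Algebra.EssFiniteType ℂ K] (hn : Algebra.trdeg ℂ K = n)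
    {X : Set (Place ℂ K)} {δ γ : Place ℂ K → ℝ} (hδ : ∀ P ∈ X, 0 ≤ δ P) (hδ1 : ∀ P ∈ X, δ P ≤ 1)
    (hγ : LinInv n X δ γ) {ρ : ℤ} {κ : ℕ}
    (hκ : ¬ KodGeB B0 (finrank K (⊤ : Submodule K (Derivation ℂ K K))) n X δ γ ρ
      (⊤ : Submodule K (Derivation ℂ K K)).subtype κ),
    ∃ U F : Submodule K (Derivation ℂ K K), U ≠ ⊥ ∧ U ≤ F ∧
      (∀ D ∈ F, ∀ D' ∈ F, ⁅D, D'⁆ ∈ F) ∧
      (∀ W : Submodule K (Derivation ℂ K K), U ≤ W → (∀ D ∈ W, ∀ D' ∈ W, ⁅D, D'⁆ ∈ W) → F ≤ W) ∧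
      InvU X δ U ∧ InvU X δ F ∧ NoTenB N0 N0 n X δ γ ρ U κ ∧ (U ≠ ⊤ → NoTenB N0 N0 n X δ γ ρ U 0) ∧
      ∀ κ' : ℕ, (κ' = κ ∨ U ≠ ⊤) → ∀ (N a : ℕ) (b : ℤ), N ≤ N0 → a ≤ N0 → |b| ≤ N0 → 0 < N + a →
        0 < (N : ℤ) + finrank K F * a + ρ * b → ∀ s : (Fin (finrank K F) → F) →
        MultilinearMap K (fun _ : Fin N => F) K, IsMov n X δ γ F.subtype κ' (a : ℤ) b s →
          ∀ B, LinearIndependent K B → s B = 0 := by
  obtain ⟨B0, hB0⟩ := exists_noTen (2 ^ n * (N0 + n * N0)) N0 n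
  refine ⟨B0, fun K _ _ _ hn X δ γ hδ hδ1 hγ ρ κ hκ => ?_⟩
  obtain ⟨hfin, hfr⟩ := finDim hn
  have htop : finrank K (⊤ : Submodule K (Derivation ℂ K K)) = n := by rw [finrank_top, hfr]
  obtain ⟨U, -, hU0, hUI, hU, hU'⟩ := hB0 K hn hδ hγ (ρ := ρ) ⊤ htop hn0
    (fun _ _ _ _ _ _ => Submodule.mem_top) κ hκ
  have hle : N0 ≤ 2 ^ n * (N0 + n * N0) := (Nat.le_add_right _ _).trans
    (Nat.le_mul_of_pos_left _ (by positivity))
  refine ⟨U, clo U, hU0, le_clo U, clo_inv, fun W h1 h2 => clo_le h1 h2, hUI, invU_clo hUI,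
    fun N a b hN => hU N a b (hN.trans hle), fun h N a b hN => hU' h N a b (hN.trans hle),
    fun κ' hκ' N a b hN ha hb hNa hNb s hs B hB => ?_⟩
  have hF0 : 0 < finrank K (clo U) := by
    have h1 : clo U ≠ ⊥ := fun h => hU0 (le_bot_iff.1 (h ▸ le_clo U))
    have hnt : Nontrivial (clo U) := Submodule.nontrivial_iff_ne_bot.2 h1
    exact Module.finrank_pos (R := K) (M := clo U)
  have hFn : finrank K (clo U) ≤ n := hfr ▸ Submodule.finrank_le _
  have hpure : NoPureB (N0 + n * N0) N0 n X δ γ ρ (clo U).subtype κ' := by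
    rcases hκ' with rfl | h
    · exact noPure_clo hn hδ n U (Nat.sub_le _ _) (noPure_of_noTen hU)
    · have h1 := noPure_clo hn hδ n U (Nat.sub_le _ _) (noPure_of_noTen (hU' h))
      intro M b hMN hbA hM hMb t ht
      exact h1 M b hMN hbA hM hMb t
        ⟨ht.1, fun i => i.elim0, algebraicIndependent_empty_type, fun i => i.elim0⟩
  exact noTwisted hn (Submodule.subtype_injective _) rfl hF0 hδ hδ1 hpure hNa
    (Nat.add_le_add hN (Nat.mul_le_mul hFn ha)) hb hNb hs hB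

end Pool.Agent.Helper91.EF
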