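import Pool.Agent.Helper91.FE.Final
import Pool.Agent.Helper91.EF.Ind
import Pool.Agent.Helper91.EF.Def

/-!
The effective theorem in terms of the definitions of `FolDef`.
-/

set_option autoImplicit false
set_option linter.unusedSectionVars false

namespace Pool.Agent.Helper91.EF

open Module FF Pool.Agent.W602.GT Pool.Agent.W603.LV Pool.Agent.TH143.GT Pool.Agent.Y220.OG
  Pool.Agent.Helper12.BL Pool.Agent.Helper91.HM Pool.Agent.Helper91.HM.Tw

open Pool.Agent.Helper91.FD (VReg VLog VInv dl IsFr dl_le dl_nonneg vlog_sum span_top exists_adp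
  InvU exists_T finDim brk clo le_clo clo_le clo_inv brk_le invU_clo)

open Pool.Agent.Helper91.FE (IsTen IsMov isMov_zero LinInv lt_inj frame_reg frame_unit exists_gamma
  linInv noTensors_of)

section map

variable {K : Type} [Field K] [Algebra ℂ K] {n : ℕ}

theorem imageGe_mul {X : Set (Place ℂ K)} {δ : Place ℂ K → ℝ} {m κ k : ℕ} (hk : 0 < k)
    (h : Fol2.ImageGe n X δ m κ) : Fol2.ImageGe n X δ (m * k) κ := by
  obtain ⟨ω, hω, D, hD, halg⟩ := h
  obtain ⟨k, rfl⟩ : ∃ l, k = l + 1 := ⟨k - 1, by omega⟩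
  refine ⟨fun j B => ω 0 B ^ k * ω j B, fun j => ⟨fun A B => ?_, fun P hP hdiv B hB => ?_⟩, D,
    mul_ne_zero (pow_ne_zero _ hD) hD, ?_⟩
  · change ω 0 _ ^ k * ω j _ = A.det ^ (m * (k + 1)) * (ω 0 B ^ k * ω j B)
    rw [(hω 0).1, (hω j).1]
    ring
  · have h1 : Gr P (-(m * δ P)) (ω 0 B) := (hω 0).2 P hP hdiv B hB
    have h2 : Gr P (-(m * δ P)) (ω j B) := (hω j).2 P hP hdiv B hB
    have h3 := (Gr.pow h1 k).mul h2
    refine Gr.mono (le_of_eq ?_) h3
    push_cast
    ring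
  · have h1 : (fun i : Fin κ => (ω 0 D ^ k * ω i.succ D) / (ω 0 D ^ k * ω 0 D)) =
        fun i : Fin κ => ω i.succ D / ω 0 D := by
      funext i
      rw [mul_div_mul_left _ _ (pow_ne_zero _ hD)]
    change AlgebraicIndependent ℂ (fun i : Fin κ => (ω 0 D ^ k * ω i.succ D) /
      (ω 0 D ^ k * ω 0 D))
    rw [h1]
    exact halg

theorem imageGe_of [Algebra.EssFiniteType ℂ K] (hn : Algebra.trdeg ℂ K = n)
    {C0 : Fin n → Derivation ℂ K K} (hC0 : LinearIndependent K C0) {X : Set (Place ℂ K)}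
    {δ γ : Place ℂ K → ℝ} (hδ : ∀ P ∈ X, 0 ≤ δ P)
    (hγ : ∀ P, Divisorial n P → ∀ E, LinearIndependent K E → IsFrame P E →
      ∀ M, C0 = lt M E → γ P = δ P - P.ord M.det) {κ B0 : ℕ}
    (h : KodGeB B0 n n X δ γ n (⊤ : Submodule K (Derivation ℂ K K)).subtype κ) :
    ∃ w, 0 < w ∧ w ≤ 2 * B0 ∧ Fol2.ImageGe n X δ w κ := by
  obtain ⟨m, b, hm, hmB, hbB, hmb, ω, hω, D, hD, halg⟩ := h
  obtain ⟨w, hw⟩ : ∃ w : ℕ, (w : ℤ) = m + b := by
    refine ⟨(m + b).toNat, Int.toNat_of_nonneg ?_⟩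
    have h1 : (0 : ℤ) < n * (m + b) := by
      rw [mul_add]
      exact hmb
    exact (pos_of_mul_pos_right h1 (Int.natCast_nonneg n)).le
  have hw0 : 0 < w := by
    have h1 : (0 : ℤ) < n * (m + b) := by
      rw [mul_add]
      exact hmb
    rw [← hw] at h1
    have h2 := pos_of_mul_pos_right h1 (Int.natCast_nonneg n)
    exact_mod_cast h2
  choose R hR using fun B : Fin n → Derivation ℂ K K => exists_lt (D := B) (li_span hn hC0)
  have hRlt : ∀ (A : Matrix (Fin n) (Fin n) K) (B : Fin n → Derivation ℂ K K),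
      R (lt A B) = A * R B := by
    intro A B
    refine lt_inj hC0 ?_
    rw [← lt_lt, ← hR, ← hR]
  let up : (Fin n → Derivation ℂ K K) → Fin n → (⊤ : Submodule K (Derivation ℂ K K)) :=
    fun B i => ⟨B i, Submodule.mem_top⟩
  have hup : ∀ (A : Matrix (Fin n) (Fin n) K) (B : Fin n → Derivation ℂ K K),
      up (lt A B) = lt A (up B) := by
    intro A B
    funext i
    apply Subtype.ext
    change ∑ l, A i l • B l = (⊤ : Submodule K (Derivation ℂ K K)).subtype
      (∑ l, A i l • up B l)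
    rw [map_sum]
    rfl
  have hval : ∀ j B, ω j (up B) = (R B).det ^ m * ω j (up C0) := by
    intro j B
    have h1 := (hω j).1 (R B) (up C0)
    rw [← hup, ← hR] at h1
    exact h1
  refine ⟨w, hw0, by
    have h1 := abs_le.1 hbB
    omega, fun j B => (R B).det ^ w * ω j (up C0), fun j => ⟨fun A B => ?_,
    fun P hP hdiv B hB => ?_⟩, fun i => (D i).1, ?_, ?_⟩
  · change (R (lt A B)).det ^ w * ω j (up C0) = A.det ^ w * ((R B).det ^ w * ω j (up C0))
    rw [hRlt, Matrix.det_mul, mul_pow, mul_assoc]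
  · change Gr P (-(w * δ P)) ((R B).det ^ w * ω j (up C0))
    obtain ⟨E, hE, hf⟩ := exists_frame hn hdiv
    obtain ⟨M, hM⟩ := exists_lt (D := C0) (li_span hn hE)
    obtain ⟨Y, hY⟩ := exists_lt (D := B) (li_span hn hE)
    have hYr := det_reg (frame_reg hE hf hB hY)
    have hM0 : M.det ≠ 0 := by
      have h1 := hC0
      rw [hM] at h1
      exact (lt_li.1 h1).2
    have h1 : M * R E = 1 := by
      refine lt_inj hC0 ?_
      rw [← lt_lt, ← hR, ← hM, lt_one]
    have h2 : M.det * (R E).det = 1 := by rw [← Matrix.det_mul, h1, Matrix.det_one]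
    have h3 : (R E).det ≠ 0 := right_ne_zero_of_mul (h2 ▸ one_ne_zero)
    have h4 : P.ord (R E).det = -P.ord M.det := by
      have h5 : P.ord M.det + P.ord (R E).det = 0 := by
        rw [← P.ord_mul hM0 h3, h2, P.ord_one]
      linarith
    have h5 : (R B).det ^ w * ω j (up C0) = Y.det ^ w * ((R E).det ^ b * ω j (up E)) := by
      rw [hY, hRlt, Matrix.det_mul, mul_pow, hval j E, ← zpow_natCast (R E).det w,
        ← zpow_natCast (R E).det m, hw, zpow_add₀ h3]
      ring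
    rw [h5]
    have h6 : Gr P (b * P.ord (R E).det) ((R E).det ^ b) := by
      right
      rw [P.ord_zpow]
      push_cast
      exact le_rfl
    have h7 := (hω j).2 P hP hdiv (up E) fun i => hf.1 i
    refine Gr.mono ?_ ((Gr.pow hYr w).mul (h6.mul h7))
    rw [h4, hγ P hdiv E hE hf M hM]
    have h8 : (w : ℝ) = m + b := by exact_mod_cast hw
    have h9 : (m : ℝ) * dl δ (⊤ : Submodule K (Derivation ℂ K K)).subtype P ≤ m * δ P :=
      mul_le_mul_of_nonneg_left (dl_le (hδ P hP)) (Nat.cast_nonneg _)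
    rw [h8]
    push_cast
    linarith
  · change (R fun i => (D i).1).det ^ w * ω 0 (up C0) ≠ 0
    have h1 : ω 0 D = (R fun i => (D i).1).det ^ m * ω 0 (up C0) := hval 0 fun i => (D i).1
    rw [h1] at hD
    have h2 : (R fun i => (D i).1).det ≠ 0 := by
      intro h0
      rw [h0, zero_pow hm.ne', zero_mul] at hD
      exact hD rfl
    exact mul_ne_zero (pow_ne_zero _ h2) (right_ne_zero_of_mul hD)
  · have h1 : ∀ j, ω j D = (R fun i => (D i).1).det ^ m * ω j (up C0) :=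
      fun j => hval j fun i => (D i).1
    have hD' := hD
    rw [h1] at hD'
    have h2 : (R fun i => (D i).1).det ≠ 0 := by
      intro h0
      rw [h0, zero_pow hm.ne', zero_mul] at hD'
      exact hD' rfl
    have h3 : (fun i : Fin κ => (R fun i => (D i).1).det ^ w * ω i.succ (up C0) /
        ((R fun i => (D i).1).det ^ w * ω 0 (up C0))) = fun i : Fin κ => ω i.succ D / ω 0 D := by
      funext i
      rw [h1, h1, mul_div_mul_left _ _ (pow_ne_zero _ h2), mul_div_mul_left _ _ (pow_ne_zero _ h2)]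
    change AlgebraicIndependent ℂ (fun i : Fin κ => (R fun i => (D i).1).det ^ w *
      ω i.succ (up C0) / ((R fun i => (D i).1).det ^ w * ω 0 (up C0)))
    rw [h3]
    exact halg

end map

/-- the effective theorem -/
theorem final_eff (n N0 : ℕ) (hn0 : 0 < n) : ∃ M : ℕ, 0 < M ∧ ∀ (K : Type) [Field K] [Algebra ℂ K]
    [Algebra.EssFiniteType ℂ K], Algebra.trdeg ℂ K = n →
    ∀ (X : Set (Place ℂ K)) (δ : Place ℂ K → ℝ), (∀ P ∈ X, 0 ≤ δ P ∧ δ P ≤ 1) → ∀ κ : ℕ,
    ¬ Fol2.ImageGe n X δ M κ →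
    ∃ U F : Submodule K (Derivation ℂ K K), U ≠ ⊥ ∧ U ≤ F ∧ Fol2.Involutive F ∧
      (∀ W, U ≤ W → Fol2.Involutive W → F ≤ W) ∧ Fol2.AutInvariant X δ U ∧
      Fol2.AutInvariant X δ F ∧ ∀ ν : ℕ, ν = κ ∨ U ≠ ⊤ → ∀ (N : ℕ) (a b : ℤ), N ≤ N0 →
        |a| ≤ N0 → |b| ≤ N0 →
        (0 < (N : ℤ) + Fol2.rk U * a → 0 < (N : ℤ) + Fol2.rk U * a + n * b →
          Fol2.NoTensors n X δ U ν N a b) ∧
        (0 ≤ a → 0 < (N : ℤ) + a → 0 < (N : ℤ) + Fol2.rk F * a + n * b →
          Fol2.NoTensors n X δ F ν N a b) := by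
  obtain ⟨B0, hB0⟩ := fol_main N0 n hn0
  refine ⟨(2 * B0).factorial, Nat.factorial_pos _, fun K _ _ _ hn X δ hδ κ hκ => ?_⟩
  obtain ⟨C0, hC0, -⟩ := exists_basis (K := K) hn
  obtain ⟨γ, hγ⟩ := exists_gamma hn hC0 δ
  obtain ⟨hfin, hfr⟩ := finDim hn
  have htop : finrank K (⊤ : Submodule K (Derivation ℂ K K)) = n := by rw [finrank_top, hfr]
  obtain ⟨U, F, h1, h2, h3, h4, h5, h6, h7, h8, h9⟩ := hB0 K hn
    (fun P hP => (hδ P hP).1) (fun P hP => (hδ P hP).2) (linInv hn hC0 (X := X) hγ)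
    (ρ := (n : ℤ)) (κ := κ) (by
      rw [htop]
      intro h
      obtain ⟨w, hw0, hw1, hw2⟩ := imageGe_of hn hC0 (fun P hP => (hδ P hP).1) hγ h
      obtain ⟨k, hk⟩ := Nat.dvd_factorial hw0 hw1
      apply hκ
      rw [hk]
      refine imageGe_mul ?_ hw2
      have h10 := Nat.factorial_pos (2 * B0)
      rw [hk] at h10
      exact Nat.pos_of_mul_pos_left h10)
  refine ⟨U, F, h1, h2, h3, h4, h5, h6, fun ν hν N a b hNN ha0 hb0 => ⟨fun hN hNb =>
    noTensors_of hn hC0 hγ fun s hs B hB => ?_, fun ha hN hNb =>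
    noTensors_of hn hC0 hγ fun s hs B hB => ?_⟩⟩
  · rcases hν with rfl | hν
    · exact h7 N a b hNN ha0 hb0 hN hNb s hs B hB
    · exact h8 hν N a b hNN ha0 hb0 hN hNb s (isMov_zero hs) B hB
  · obtain ⟨a', rfl⟩ := Int.eq_ofNat_of_zero_le ha
    have ha1 : a' ≤ N0 := by
      rw [abs_of_nonneg ha] at ha0
      exact_mod_cast ha0
    exact h9 ν hν N a' b hNN ha1 hb0 (by exact_mod_cast hN) hNb s hs B hB

end Pool.Agent.Helper91.EF
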