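import Pool.Agent.Helper91.HM.Gen

/-!
Invariants of bounded degree suffice, uniformly for all fields.
-/

set_option autoImplicit false
set_option linter.unusedSectionVars false

namespace Pool.Agent.Helper91.EF

open MvPolynomial Pool.Agent.Helper91.HM

/-- all invariants of degree at most `B` vanish on the products of the tensors -/
def NoInvB {K : Type} [Field K] {n : ℕ} {ι : Type} {N : ι → ℕ} [Algebra ℝ K] (B : ℕ)
    (T : ∀ i, (Fin (N i) → Fin n) → K) : Prop :=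
  ∀ (Q : Type) [Fintype Q] [DecidableEq Q] [Nonempty Q], Fintype.card Q ≤ B → ∀ (ν : Q → ι)
    (p : ((Σ q, Fin (N (ν q))) → Fin n) → ℝ), SLInv p →
      ∑ I, algebraMap ℝ K (p I) * wordT T ν I = 0

/-- the generic tensors -/
noncomputable def genT (n : ℕ) {ι : Type} (N : ι → ℕ) :
    ∀ i, (Fin (N i) → Fin n) → MvPolynomial (Om n N) ℝ := fun i I => X ⟨i, I⟩

/-- the invariants as polynomials -/
def invs (n : ℕ) {ι : Type} (N : ι → ℕ) : Set (MvPolynomial (Om n N) ℝ) :=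
  {F | ∃ (Q : Type) (_ : Fintype Q) (_ : DecidableEq Q) (_ : Nonempty Q) (ν : Q → ι)
    (p : ((Σ q, Fin (N (ν q))) → Fin n) → ℝ), SLInv p ∧
      F = ∑ I, C (p I) * wordT (genT n N) ν I}

theorem eval_inv {K : Type} [Field K] {n : ℕ} {ι : Type} {N : ι → ℕ} [Algebra ℝ K]
    (T : ∀ i, (Fin (N i) → Fin n) → K) {Q : Type} [Fintype Q] [DecidableEq Q] (ν : Q → ι)
    (p : ((Σ q, Fin (N (ν q))) → Fin n) → ℝ) :
    aeval (fun ω : Om n N => T ω.1 ω.2) (∑ I, C (p I) * wordT (genT n N) ν I) =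
      ∑ I, algebraMap ℝ K (p I) * wordT T ν I := by
  rw [map_sum]
  refine Finset.sum_congr rfl fun I _ => ?_
  rw [map_mul, aeval_C, wordT, wordT, map_prod]
  congr 1
  refine Finset.prod_congr rfl fun x _ => ?_
  rw [genT, aeval_X]

/-- **Invariants of bounded degree suffice.** -/
theorem noeth (n : ℕ) (ι : Type) [Finite ι] (N : ι → ℕ) : ∃ B : ℕ, ∀ (K : Type) [Field K]
    [Algebra ℝ K] (T : ∀ i, (Fin (N i) → Fin n) → K), NoInvB B T → NoInv T := by
  classical
  have hOm : Finite (Om n N) := inferInstance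
  obtain ⟨F, hF1, hF2⟩ := (Submodule.fg_span_iff_fg_span_finset_subset
    (R := MvPolynomial (Om n N) ℝ) (invs n N)).1 (IsNoetherian.noetherian _)
  have h1 : ∀ f : F, ∃ B : ℕ, ∀ (K : Type) [Field K] [Algebra ℝ K]
      (T : ∀ i, (Fin (N i) → Fin n) → K), NoInvB B T →
        aeval (fun ω : Om n N => T ω.1 ω.2) f.1 = 0 := by
    intro f
    obtain ⟨Q, hQ1, hQ2, hQ3, ν, p, hp, hf⟩ := hF1 f.2
    refine ⟨Fintype.card Q, fun K _ _ T hT => ?_⟩
    rw [hf, eval_inv]
    exact hT Q le_rfl ν p hp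
  choose B hB using h1
  refine ⟨∑ f : F, B f, fun K _ _ T hT => ?_⟩
  have hmono : ∀ f : F, NoInvB (B f) T := by
    intro f Q _ _ _ hQ ν p hp
    exact hT Q (hQ.trans (Finset.single_le_sum (f := B) (fun _ _ => Nat.zero_le _)
      (Finset.mem_univ f))) ν p hp
  intro Q _ _ _ ν p hp
  rw [← eval_inv]
  have h2 : (∑ I, C (p I) * wordT (genT n N) ν I : MvPolynomial (Om n N) ℝ) ∈
      Submodule.span (MvPolynomial (Om n N) ℝ) (invs n N) :=
    Submodule.subset_span ⟨Q, _, _, inferInstance, ν, p, hp, rfl⟩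
  rw [hF2] at h2
  have h3 : Submodule.span (MvPolynomial (Om n N) ℝ) (F : Set (MvPolynomial (Om n N) ℝ)) ≤
      RingHom.ker (aeval (fun ω : Om n N => T ω.1 ω.2) : MvPolynomial (Om n N) ℝ →ₐ[ℝ] K) := by
    change Ideal.span _ ≤ _
    rw [Ideal.span_le]
    intro f hf
    rw [SetLike.mem_coe, RingHom.mem_ker]
    exact hB ⟨f, hf⟩ K T (hmono _)
  exact RingHom.mem_ker.1 (h3 h2)

end Pool.Agent.Helper91.EF
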